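import Pool.Agent.H90.TC.Sq.Defs
import Pool.Agent.H90.TC.Hex.Defs
import Pool.Agent.H90.TC.FSDefs

set_option autoImplicit false

/-!
The front system of a complex of type (2,4,4). Write `ρ` for the distance from `x0` in the leg graph.
Front edges: hypotenuses `h = (a,c)` (type `Hyp G col`: `a` of colour 0, `c` of colour 2). `a` and `c` have
a common neighbour of colour 1 (`pure`), so by `step` `ρ a = ρ c` or they differ by 2.
* If `ρ a = ρ c`: `lv h = ρ a`, `inc h v` iff `v = a` or `v = c`, `up h` is the unique common parent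
  (`Lay4.hyp`).
* If `ρ c = ρ a + 2` (or `ρ a = ρ c + 2`): `lv h` is the number between, `inc h v` iff `v` is a common
  neighbour of colour 1 of `a` and `c`, `up h = a` (resp. `c`), the lower one.
`q x0 = inl x0`. For `v ≠ x0` with two different parents `d, e`: if `col v = 1`, `q v = inr` of the
hypotenuse `{d,e}` (`Lay4.one`); if `col v ≠ 1`, `q v = inr` of the hypotenuse `{v,c}` with `c` from
`Lay4.fold`. Otherwise `q v = inl (the parent)`.
* `q_par`: clear; for `col v = 1` there are not three different parents (pairwise adjacent, colours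
  0 and 2 only); for `col v ≠ 1` by `Lay4.fold`. `tc`: never happens (`step`).
* `w5`: `h = (a,c)` with `ρ a = ρ c`, `v = a`, `w = c`: both have two different parents; `q a = inr (a,c1)`
  with `ρ c1 = ρ a - 2`, so `up` of it is `c1` of colour 2, and for `c` it is a vertex of colour 0: they
  are different. `h = (a,c)` with `ρ c = ρ a + 2`, `v, w` different of colour 1 adjacent to `a` and `c`: `a` is
  a parent of both, `q v = inr (a,c1)` with `ρ c1 = ρ a`, `c1` adjacent to `v` and `a`; `q w = inr (a,c2)`.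
  Suppose their `up`s are equal to `b` (level `ρ a - 1`). `c ≠ c1, c2` by levels. If `c1 = c2`: 4-cycle
  `v, c, w, c1` in the link of `a`. Otherwise 6-cycle `v, c, w, c2, b, c1` in the link of `a`. Both are
  excluded by `SqLoc`. The same with the roles of `a` and `c` exchanged.
-/

namespace Pool.H90TC

open Pool.H90SY

universe u

variable {V : Type u}

private theorem par_exists {G : SimpleGraph V} {col : V → Fin 3} {x0 : V}
    (hL : Lay4 G col x0) {v : V} (hv : v ≠ x0) : ∃ d : V, Par4 G col x0 v d := by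
  obtain ⟨p, hp⟩ := hL.conn.exists_walk_length_eq_dist v x0
  cases p with
  | nil => exact absurd rfl hv
  | @cons _ u _ h q =>
    have hl : Leg G col v u := h
    refine ⟨u, hl, ?_⟩
    have h1 := SimpleGraph.dist_le q
    rw [SimpleGraph.Walk.length_cons] at hp
    have h2 : (legG G col).dist v x0 = (legG G col).dist x0 v := SimpleGraph.dist_comm
    have h3 : (legG G col).dist u x0 = (legG G col).dist x0 u := SimpleGraph.dist_comm
    rcases hL.step v u hl with h4 | h4 <;> omega

private theorem mkHyp {G : SimpleGraph V} {col : V → Fin 3} (hT : Tri G col) {u v : V}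
    (hu : col u ≠ 1) (hv : col v ≠ 1) (h : G.Adj u v) :
    ∃ k : Hyp G col, k.1 = (u, v) ∨ k.1 = (v, u) := by
  have hne := hT.proper u v h
  by_cases h0 : col u = 0
  · have h2 : col v = 2 := by omega
    exact ⟨⟨(u, v), h0, h2, h⟩, Or.inl rfl⟩
  · have h2 : col u = 2 := by omega
    have h3 : col v = 0 := by omega
    exact ⟨⟨(v, u), h3, h2, h.symm⟩, Or.inr rfl⟩

/-- the possible parents of a vertex -/
private def Gd (G : SimpleGraph V) (col : V → Fin 3) (x0 : V) (v : V) : V ⊕ Hyp G col → Prop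
  | Sum.inl w => Par4 G col x0 v w ∧ ∀ b : V, Par4 G col x0 v b → b = w
  | Sum.inr h => (col v = 1 ∧ Par4 G col x0 v h.1.1 ∧ Par4 G col x0 v h.1.2) ∨
      (∃ c : V, (h.1 = (v, c) ∨ h.1 = (c, v)) ∧ col v ≠ 1 ∧
        (legG G col).dist x0 c + 2 = (legG G col).dist x0 v ∧
        (∀ b : V, Par4 G col x0 v b ↔ (col b = 1 ∧ G.Adj v b ∧ G.Adj b c)) ∧
        ∃ d : V, Par4 G col x0 v d)

private theorem gd_exists {G : SimpleGraph V} {col : V → Fin 3} {x0 : V} (hT : Tri G col)
    (hL : Lay4 G col x0) {v : V} (hv : v ≠ x0) : ∃ y : V ⊕ Hyp G col, Gd G col x0 v y := by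
  obtain ⟨d, hd⟩ := par_exists hL hv
  by_cases hu : ∀ b : V, Par4 G col x0 v b → b = d
  · exact ⟨Sum.inl d, hd, hu⟩
  · push Not at hu
    obtain ⟨e, he, hne⟩ := hu
    by_cases hc : col v = 1
    · have h1 := hL.one v d e hc hd he hne.symm
      have h2 := hT.proper v d hd.1.1
      have h3 := hT.proper v e he.1.1
      obtain ⟨k, hk⟩ := mkHyp hT (u := d) (v := e) (fun h => h2 (hc.trans h.symm))
        (fun h => h3 (hc.trans h.symm)) h1
      refine ⟨Sum.inr k, Or.inl ⟨hc, ?_⟩⟩
      rcases hk with hk | hk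
      · rw [hk]; exact ⟨hd, he⟩
      · rw [hk]; exact ⟨he, hd⟩
    · obtain ⟨c, h1, h2, h3, h4⟩ := hL.fold v d e hc hd he hne.symm
      obtain ⟨k, hk⟩ := mkHyp hT hc h1 h2
      exact ⟨Sum.inr k, Or.inr ⟨c, hk, hc, h3, h4, d, hd⟩⟩

/-- a vertex of colour 1 has at most the two parents of a hypotenuse -/
private theorem two_par {G : SimpleGraph V} {col : V → Fin 3} {x0 : V} (hT : Tri G col)
    (hL : Lay4 G col x0) {v w : V} (h : Hyp G col) (hc : col v = 1)
    (h1 : Par4 G col x0 v h.1.1) (h2 : Par4 G col x0 v h.1.2) (hw : Par4 G col x0 v w) :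
    w = h.1.1 ∨ w = h.1.2 := by
  by_contra hcon
  push Not at hcon
  have h3 := hT.proper _ _ (hL.one v w h.1.1 hc hw h1 hcon.1)
  have h4 := hT.proper _ _ (hL.one v w h.1.2 hc hw h2 hcon.2)
  have h5 := hT.proper _ _ hw.1.1
  have h6 := h.2.1
  have h7 := h.2.2.1
  rw [h6] at h3
  rw [h7] at h4
  rw [hc] at h5
  omega

private theorem cyc {G : SimpleGraph V} {a c v w c1 c2 b : V} (h4 : NC4 G a) (h6 : NC6 G a)
    (av : G.Adj a v) (aw : G.Adj a w) (ac : G.Adj a c) (ac1 : G.Adj a c1) (ac2 : G.Adj a c2)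
    (ab : G.Adj a b) (vc : G.Adj v c) (wc : G.Adj w c) (vc1 : G.Adj v c1) (wc2 : G.Adj w c2)
    (bc1 : G.Adj b c1) (bc2 : G.Adj b c2) (hvw : v ≠ w) (hcc1 : c ≠ c1) (hcc2 : c ≠ c2)
    (hvb : v ≠ b) (hwb : w ≠ b) : False := by
  by_cases h : c1 = c2
  · subst h
    exact h4 v w c c1 av aw ac ac1 vc wc.symm wc2 vc1.symm hvw hcc1
  · exact h6 v w b c c2 c1 av aw ab ac ac2 ac1 vc wc.symm wc2 bc2.symm bc1 vc1.symm hvw hvb hwb
      hcc2 hcc1 (fun he => h he.symm)

theorem fs_of_lay4 {G : SimpleGraph V} {col : V → Fin 3} (hT : Tri G col) (hX : SqLoc G col)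
    (x0 : V) (hL : Lay4 G col x0) : Nonempty (FS (legG G col) x0 (Hyp G col)) := by
  classical
  -- levels of the ends of a hypotenuse
  have tri : ∀ h : Hyp G col,
      (legG G col).dist x0 h.1.1 = (legG G col).dist x0 h.1.2 ∨
      (legG G col).dist x0 h.1.2 = (legG G col).dist x0 h.1.1 + 2 ∨
      (legG G col).dist x0 h.1.1 = (legG G col).dist x0 h.1.2 + 2 := by
    intro h
    obtain ⟨b, hb1, hb2⟩ := hT.pure _ _ h.2.2.2
    have h1 := hT.proper _ _ hb1
    have h2 := hT.proper _ _ hb2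
    have h3 := h.2.1
    have h4 := h.2.2.1
    rw [h3] at h1
    rw [h4] at h2
    have hb : col b = 1 := by omega
    rcases hL.step h.1.1 b ⟨hb1, Or.inr hb⟩ with h5 | h5 <;>
      rcases hL.step h.1.2 b ⟨hb2, Or.inr hb⟩ with h6 | h6 <;> omega
  have upex : ∀ h : Hyp G col, ∃ b : V,
      (legG G col).dist x0 h.1.1 = (legG G col).dist x0 h.1.2 →
      Par4 G col x0 h.1.1 b ∧ Par4 G col x0 h.1.2 b := by
    intro h
    by_cases he : (legG G col).dist x0 h.1.1 = (legG G col).dist x0 h.1.2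
    · have h3 := h.2.1
      have h4 := h.2.2.1
      obtain ⟨b, hb1, hb2, _⟩ := hL.hyp h.1.1 h.1.2 (by rw [h3]; decide) (by rw [h4]; decide)
        h.2.2.2 he
      exact ⟨b, fun _ => ⟨hb1, hb2⟩⟩
    · exact ⟨x0, fun h' => absurd h' he⟩
  choose upI hupI using upex
  have qex : ∀ v : V, ∃ y : V ⊕ Hyp G col, (v = x0 → y = Sum.inl x0) ∧
      (v ≠ x0 → Gd G col x0 v y) := by
    intro v
    by_cases hv : v = x0
    · exact ⟨Sum.inl x0, fun _ => rfl, fun h => absurd hv h⟩
    · obtain ⟨y, hy⟩ := gd_exists hT hL hv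
      exact ⟨y, fun h => absurd h hv, fun _ => hy⟩
  choose q hq0 hq using qex
  -- the data
  let up : Hyp G col → V := fun h =>
    if (legG G col).dist x0 h.1.1 = (legG G col).dist x0 h.1.2 then upI h
    else if (legG G col).dist x0 h.1.1 < (legG G col).dist x0 h.1.2 then h.1.1 else h.1.2
  let lv : Hyp G col → ℕ := fun h =>
    if (legG G col).dist x0 h.1.1 = (legG G col).dist x0 h.1.2 then (legG G col).dist x0 h.1.1
    else if (legG G col).dist x0 h.1.1 < (legG G col).dist x0 h.1.2 then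
      (legG G col).dist x0 h.1.1 + 1 else (legG G col).dist x0 h.1.2 + 1
  let inc : Hyp G col → V → Prop := fun h v =>
    if (legG G col).dist x0 h.1.1 = (legG G col).dist x0 h.1.2 then v = h.1.1 ∨ v = h.1.2
    else col v = 1 ∧ G.Adj h.1.1 v ∧ G.Adj v h.1.2
  -- the three cases, unfolded
  have cI : ∀ h : Hyp G col, (legG G col).dist x0 h.1.1 = (legG G col).dist x0 h.1.2 →
      up h = upI h ∧ lv h = (legG G col).dist x0 h.1.1 ∧
      ∀ v, (inc h v ↔ (v = h.1.1 ∨ v = h.1.2)) := by
    intro h he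
    exact ⟨if_pos he, if_pos he, fun v => by simp only [inc, if_pos he]⟩
  have cII : ∀ h : Hyp G col, (legG G col).dist x0 h.1.2 = (legG G col).dist x0 h.1.1 + 2 →
      up h = h.1.1 ∧ lv h = (legG G col).dist x0 h.1.1 + 1 ∧
      ∀ v, (inc h v ↔ (col v = 1 ∧ G.Adj h.1.1 v ∧ G.Adj v h.1.2)) := by
    intro h he
    have h1 : ¬ (legG G col).dist x0 h.1.1 = (legG G col).dist x0 h.1.2 := by omega
    have h2 : (legG G col).dist x0 h.1.1 < (legG G col).dist x0 h.1.2 := by omega
    exact ⟨by simp only [up, if_neg h1, if_pos h2], by simp only [lv, if_neg h1, if_pos h2],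
      fun v => by simp only [inc, if_neg h1]⟩
  have cIII : ∀ h : Hyp G col, (legG G col).dist x0 h.1.1 = (legG G col).dist x0 h.1.2 + 2 →
      up h = h.1.2 ∧ lv h = (legG G col).dist x0 h.1.2 + 1 ∧
      ∀ v, (inc h v ↔ (col v = 1 ∧ G.Adj h.1.1 v ∧ G.Adj v h.1.2)) := by
    intro h he
    have h1 : ¬ (legG G col).dist x0 h.1.1 = (legG G col).dist x0 h.1.2 := by omega
    have h2 : ¬ (legG G col).dist x0 h.1.1 < (legG G col).dist x0 h.1.2 := by omega
    exact ⟨by simp only [up, if_neg h1, if_neg h2], by simp only [lv, if_neg h1, if_neg h2],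
      fun v => by simp only [inc, if_neg h1]⟩
  clear_value up lv inc
  -- one statement for everything about a pair (h, v)
  have incF : ∀ (h : Hyp G col) (v : V), inc h v →
      (legG G col).dist x0 v = lv h ∧ Par4 G col x0 v (up h) := by
    intro h v hv
    rcases tri h with he | he | he
    · obtain ⟨c1, c2, c3⟩ := cI h he
      obtain ⟨p1, p2⟩ := hupI h he
      rcases (c3 v).1 hv with h1 | h1
      · rw [c1, c2, h1]; exact ⟨rfl, p1⟩
      · rw [c1, c2, h1]; exact ⟨he.symm, p2⟩
    · obtain ⟨c1, c2, c3⟩ := cII h he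
      obtain ⟨h1, h2, h3⟩ := (c3 v).1 hv
      have l1 : Leg G col v h.1.1 := ⟨h2.symm, Or.inl h1⟩
      have l2 : Leg G col v h.1.2 := ⟨h3, Or.inl h1⟩
      have s1 := hL.step _ _ l1
      have s2 := hL.step _ _ l2
      have e1 : (legG G col).dist x0 v = (legG G col).dist x0 h.1.1 + 1 := by omega
      rw [c1, c2]
      exact ⟨e1, l1, e1.symm⟩
    · obtain ⟨c1, c2, c3⟩ := cIII h he
      obtain ⟨h1, h2, h3⟩ := (c3 v).1 hv
      have l1 : Leg G col v h.1.1 := ⟨h2.symm, Or.inl h1⟩
      have l2 : Leg G col v h.1.2 := ⟨h3, Or.inl h1⟩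
      have s1 := hL.step _ _ l1
      have s2 := hL.step _ _ l2
      have e1 : (legG G col).dist x0 v = (legG G col).dist x0 h.1.2 + 1 := by omega
      rw [c1, c2]
      exact ⟨e1, l2, e1.symm⟩
  -- a vertex with an edge as parent
  have qinr : ∀ (v : V) (e : Hyp G col), q v = Sum.inr e → Gd G col x0 v (Sum.inr e) := by
    intro v e he
    have hv : v ≠ x0 := by
      intro h0
      rw [hq0 v h0] at he
      cases he
    have := hq v hv
    rwa [he] at this
  -- T2 in terms of up
  have gdT2 : ∀ (v c : V) (e : Hyp G col), (e.1 = (v, c) ∨ e.1 = (c, v)) →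
      (legG G col).dist x0 c + 2 = (legG G col).dist x0 v →
      up e = c ∧ lv e = (legG G col).dist x0 c + 1 ∧
      ∀ w, (inc e w ↔ (col w = 1 ∧ G.Adj v w ∧ G.Adj w c)) := by
    intro v c e he hd
    rcases he with he | he
    · have e1 : e.1.1 = v := by rw [he]
      have e2 : e.1.2 = c := by rw [he]
      have := cIII e (by rw [e1, e2]; omega)
      rw [e1, e2] at this
      exact this
    · have e1 : e.1.1 = c := by rw [he]
      have e2 : e.1.2 = v := by rw [he]
      have := cII e (by rw [e1, e2]; omega)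
      rw [e1, e2] at this
      refine ⟨this.1, this.2.1, fun w => (this.2.2 w).trans ?_⟩
      constructor
      · rintro ⟨k1, k2, k3⟩; exact ⟨k1, k3.symm, k2.symm⟩
      · rintro ⟨k1, k2, k3⟩; exact ⟨k1, k3.symm, k2.symm⟩
  -- T1 in terms of up
  have gdT1 : ∀ (v : V) (e : Hyp G col), Par4 G col x0 v e.1.1 → Par4 G col x0 v e.1.2 →
      lv e = (legG G col).dist x0 e.1.1 ∧ Par4 G col x0 e.1.1 (up e) ∧
      Par4 G col x0 e.1.2 (up e) ∧ ∀ w, (inc e w ↔ (w = e.1.1 ∨ w = e.1.2)) := by
    intro v e h1 h2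
    have he : (legG G col).dist x0 e.1.1 = (legG G col).dist x0 e.1.2 := by
      have := h1.2
      have := h2.2
      omega
    obtain ⟨c1, c2, c3⟩ := cI e he
    obtain ⟨p1, p2⟩ := hupI e he
    rw [c1]
    exact ⟨c2, p1, p2, c3⟩
  -- the heart of w5: two vertices of colour 1 on a vertical hypotenuse
  have w5V : ∀ (a c v w : V) (e' e'' : Hyp G col), col a ≠ 1 → NC4 G a → NC6 G a →
      G.Adj a c → (legG G col).dist x0 c = (legG G col).dist x0 a + 2 →
      col v = 1 → col w = 1 → G.Adj a v → G.Adj a w → G.Adj v c → G.Adj w c → v ≠ w →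
      q v = Sum.inr e' → q w = Sum.inr e'' → up e' ≠ up e'' := by
    intro a c v w e' e'' ha n4 n6 ac hd cv cw av aw vc wc hvw qv qw hup
    -- the other end of the edge
    have other : ∀ (z : V) (e : Hyp G col), col z = 1 → G.Adj a z → G.Adj z c →
        q z = Sum.inr e → (legG G col).dist x0 z = (legG G col).dist x0 a + 1 ∧
        ∃ c1 : V, G.Adj a c1 ∧ G.Adj z c1 ∧
          (legG G col).dist x0 c1 = (legG G col).dist x0 a ∧
          Par4 G col x0 a (up e) ∧ Par4 G col x0 c1 (up e) := by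
      intro z e cz az zc qz
      have l1 : Leg G col z a := ⟨az.symm, Or.inl cz⟩
      have l2 : Leg G col z c := ⟨zc, Or.inl cz⟩
      have s1 := hL.step _ _ l1
      have s2 := hL.step _ _ l2
      have e1 : (legG G col).dist x0 z = (legG G col).dist x0 a + 1 := by omega
      have pa : Par4 G col x0 z a := ⟨l1, e1.symm⟩
      refine ⟨e1, ?_⟩
      rcases qinr z e qz with ⟨_, p1, p2⟩ | ⟨c', _, hz, _⟩
      · obtain ⟨_, u1, u2, _⟩ := gdT1 z e p1 p2
        have hd1 := p1.2
        have hd2 := p2.2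
        rcases two_par hT hL e cz p1 p2 pa with h | h
        · refine ⟨e.1.2, ?_, p2.1.1, by omega, ?_, u2⟩
          · rw [h]; exact e.2.2.2
          · rw [h]; exact u1
        · refine ⟨e.1.1, ?_, p1.1.1, by omega, ?_, u1⟩
          · rw [h]; exact e.2.2.2.symm
          · rw [h]; exact u2
      · exact absurd cz hz
    obtain ⟨dv, c1, ac1, vc1, d1, ua, uc1⟩ := other v e' cv av vc qv
    obtain ⟨dw, c2, ac2, wc2, d2, _, uc2⟩ := other w e'' cw aw wc qw
    rw [← hup] at uc2
    have hub := ua.2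
    refine cyc n4 n6 av aw ac ac1 ac2 ua.1.1 vc wc vc1 wc2 uc1.1.1.symm uc2.1.1.symm hvw ?_ ?_ ?_ ?_
    · intro h; rw [h] at hd; omega
    · intro h; rw [h] at hd; omega
    · intro h; rw [← h] at hub; omega
    · intro h; rw [← h] at hub; omega
  refine ⟨{
    conn := hL.conn
    lv := lv
    inc := inc
    up := up
    q := q
    inc_lv := fun e v h => (incF e v h).1
    up_lv := ?_
    up_adj := fun e v h => (incF e v h).2.1
    q_base := hq0 x0 rfl
    q_v := ?_
    q_e := ?_
    q_par := ?_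
    tc := ?_
    w5 := ?_ }⟩
  · intro e v h
    obtain ⟨h1, h2⟩ := incF e v h
    rw [← h1]
    exact h2.2
  · intro v w hv hw
    have h := hq v hv
    rw [hw] at h
    exact ⟨h.1.1, h.1.2⟩
  · intro v e he
    rcases qinr v e he with ⟨_, p1, p2⟩ | ⟨c, hc, _, hd, hb, d, hpd⟩
    · obtain ⟨h1, _, _, h4⟩ := gdT1 v e p1 p2
      refine ⟨?_, e.1.1, (h4 _).2 (Or.inl rfl), p1.1⟩
      rw [h1]
      exact p1.2.symm
    · obtain ⟨_, h2, h3⟩ := gdT2 v c e hc hd
      refine ⟨by rw [h2]; omega, d, (h3 d).2 ((hb d).1 hpd), hpd.1⟩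
  · intro v w hvw hd
    have hv : v ≠ x0 := by
      intro h0
      rw [h0, SimpleGraph.dist_self] at hd
      omega
    have hp : Par4 G col x0 v w := ⟨hvw, hd⟩
    have h := hq v hv
    rcases hqv : q v with w' | e
    · rw [hqv] at h
      exact Or.inl (by rw [h.2 w hp])
    · right
      refine ⟨e, rfl, ?_⟩
      rcases qinr v e hqv with ⟨hc, p1, p2⟩ | ⟨c, hc, _, hd', hb, _⟩
      · exact ((gdT1 v e p1 p2).2.2.2 w).2 (two_par hT hL e hc p1 p2 hp)
      · exact ((gdT2 v c e hc hd').2.2 w).2 ((hb w).1 hp)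
  · intro v w hvw hd
    rcases hL.step v w hvw with h | h <;> omega
  · intro e v w e' e'' hv hw hvw qv qw
    rcases tri e with he | he | he
    · -- horizontal hypotenuse
      obtain ⟨_, _, h3⟩ := cI e he
      have key : ∀ (x : V) (k : Hyp G col), col x ≠ 1 → q x = Sum.inr k →
          ∃ c : V, up k = c ∧ (k.1 = (x, c) ∨ k.1 = (c, x)) := by
        intro x k hx qx
        rcases qinr x k qx with ⟨hc, _⟩ | ⟨c, hc, _, hd, _⟩
        · exact absurd hc hx
        · exact ⟨c, (gdT2 x c k hc hd).1, hc⟩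
      have c0 : ∀ k : Hyp G col, q e.1.1 = Sum.inr k → col (up k) = 2 := by
        intro k hk
        obtain ⟨c, h1, h2⟩ := key e.1.1 k (by rw [e.2.1]; decide) hk
        rcases h2 with h2 | h2
        · have := k.2.2.1
          rw [h2] at this
          rw [h1]; exact this
        · have := k.2.2.1
          rw [h2] at this
          have h5 : col e.1.1 = 2 := this
          rw [e.2.1] at h5
          exact absurd h5 (by decide)
      have c2 : ∀ k : Hyp G col, q e.1.2 = Sum.inr k → col (up k) = 0 := by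
        intro k hk
        obtain ⟨c, h1, h2⟩ := key e.1.2 k (by rw [e.2.2.1]; decide) hk
        rcases h2 with h2 | h2
        · have := k.2.1
          rw [h2] at this
          have h5 : col e.1.2 = 0 := this
          rw [e.2.2.1] at h5
          exact absurd h5 (by decide)
        · have := k.2.1
          rw [h2] at this
          rw [h1]; exact this
      intro hup
      rcases (h3 v).1 hv with h4 | h4 <;> rcases (h3 w).1 hw with h5 | h5
      · exact hvw (h4.trans h5.symm)
      · rw [h4] at qv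
        rw [h5] at qw
        have h6 := c0 _ qv
        have h7 := c2 _ qw
        rw [hup, h7] at h6
        exact absurd h6 (by decide)
      · rw [h4] at qv
        rw [h5] at qw
        have h6 := c2 _ qv
        have h7 := c0 _ qw
        rw [hup, h7] at h6
        exact absurd h6 (by decide)
      · exact hvw (h4.trans h5.symm)
    · obtain ⟨_, _, h3⟩ := cII e he
      obtain ⟨v1, v2, v3⟩ := (h3 v).1 hv
      obtain ⟨w1, w2, w3⟩ := (h3 w).1 hw
      exact w5V e.1.1 e.1.2 v w e' e'' (by rw [e.2.1]; decide) (hX.a4 _ e.2.1) (hX.a6 _ e.2.1)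
        e.2.2.2 he v1 w1 v2 w2 v3 w3 hvw qv qw
    · obtain ⟨_, _, h3⟩ := cIII e he
      obtain ⟨v1, v2, v3⟩ := (h3 v).1 hv
      obtain ⟨w1, w2, w3⟩ := (h3 w).1 hw
      exact w5V e.1.2 e.1.1 v w e' e'' (by rw [e.2.2.1]; decide) (hX.c4 _ e.2.2.1)
        (hX.c6 _ e.2.2.1) e.2.2.2.symm he v1 w1 v3.symm w3.symm v2.symm w2.symm hvw qv qw

end Pool.H90TC
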