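import Pool.Agent.H90.TC.Sq.Lay
import Pool.Agent.H90.TC.Sq.FS
import Pool.Agent.H90.TC.Hex.Dist
import Pool.Agent.H90.TC.FSCover

set_option autoImplicit false

namespace Pool.H90TC

open Pool.H90SY

universe u

variable {V : Type u}

/-- complexes of type (2,4,4) -/
theorem sq_cover {G : SimpleGraph V} {col : V → Fin 3} (hT : Tri G col) (hX : SqLoc G col)
    (hc : G.Connected) (hs : ScInj G) : ∀ R : ℕ, 1 ≤ R → CoverAt G.dist 2 R (168 * R) := by
  intro R hR
  obtain ⟨x0⟩ := hc.nonempty
  obtain ⟨S⟩ := fs_of_lay4 hT hX x0 (lay4_of_sc hT hX hc hs x0)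
  refine cover_pull id G.dist (legG G col).dist 2 R (168 * R) (2 * R) (84 * (2 * R)) ?_ ?_
    (S.cover (2 * R) (by omega))
  · intro x y h
    have := leg_dist_le hT hc x y
    simp only [id]
    omega
  · intro x y h
    have := le_leg_dist hT hc x y
    simp only [id] at h
    omega

end Pool.H90TC
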