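import Pool.Agent.H90.TC.Sq.Nxt

set_option autoImplicit false

/-!
Proof. `symm`, `adj`, `ex` (parent if `v ∈ dn y`, otherwise the child `[(y,v)]`) are immediate.
`uniq`: two parents with the same image: representatives `(z1,v), (z2,v)` related (`mk_eq4`), equal
by `sib_unique`; two children with the same image: the same candidate; a parent and a child over
`v`: `v ∈ dn y` and `v ∉ dn y`.

`sq`: `E x y, E x z, E y w`, images `X, Y, Z, U`, `Leg Z U`, and `G.Adj X U` (type I: `X, U` not of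
colour 1, `Y, Z` of colour 1) or `G.Adj Y Z` (type II: `X, U` of colour 1, `Y, Z` not). If `Y = Z` then
`y = z` (`uniq`), done. If `U = X` then `w = x`, done. So let `Y ≠ Z`, `U ≠ X`. Facts: if `sib` holds for
two elements of level `n` over `D`, then `n = m + 1` and they are children of the same element
of level `m` over `D`, which is the parent over `D` of each of them (by `uniq`).
* `y, z` both parents of `x`: representatives `(y,X), (z,X)` of `x`, so `sib y z e` and `G.Adj e X`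
  (type I) or `G.Adj Y Z` (type II). Type I: `Y, Z` are adjacent to `X, e, U`, `NC4` at `X` gives
  `e = U`: the common parent over `U` is `w`. Type II: if `U = e` the same. Otherwise `U ∉ dn y`: if
  `U ∈ dn y` then `single` for `y, z, e, U` gives `U = e`. In the same way `U ∉ dn z`. `w` is the child
  `[(y,U)] = [(z,U)]` (related by `e`).
* `y` parent, `z = [(x,Z)]` child of `x`. Type I: `lat` for `x, Y, U`: either `K_U(X) ⊆ dn x`, so
  `Z ∈ dn x`, contradiction, or there is `x2` with `sib x x2 Y`, `ph x2 = U`: `x2` is a child of `y`,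
  so `w = x2`. `Z ∉ dn x2` (otherwise `single` for `x2, x, Y, Z` gives `Z = Y`), `(x2,Z)` is related to
  `(x,Z)`, so `E z x2`. Type II: `fan` for `x, Y, Z` and `b = U` gives `x2` with `sib x x2 Y`,
  `ph x2 = U`, so `w = x2`. `Z ∉ dn x2` by `same`. `(x2,Z)` is related to `(x,Z)`.
* `y` child, `z` parent of `x`: let `w'` be the neighbour of `z` over `U` (`ex`); by the previous
  case `E y w'`, so `w' = w` by `uniq`.
* `y = [(x,Y)]`, `z = [(x,Z)]` children of `x`. Type I, `U ∈ dn y`: `(x,Y)` is related to `(x2,Y)` with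
  `ph x2 = U`, `sib x x2 e`, `e ∈ dn x`; `Z ∉ dn x2` (otherwise `single` for `x2, x, e, Z` gives
  `Z = e ∈ dn x`), so `z = [(x2,Z)]`, `w = x2`. Type I, `U ∈ dn z`: symmetric, gives `U ∈ dn y`. Type I,
  `U ∉ dn y`, `U ∉ dn z`: `w = [(y,U)]`, which is related to `(z,U)` by `sib y z X`, `G.Adj X U`.
  Type II: `U ∉ dn y`: otherwise `(x,Y)` is related to `(x2,Y)`, `ph x2 = U`, `sib x x2 e`,
  `G.Adj e Y`, `e ∈ dn x`; `X, U` are adjacent to `Y, e, Z`, so `e = Z` by `NC4` at `Y`, but `Z ∉ dn x`.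
  In the same way `U ∉ dn z`; `w = [(y,U)]` is related to `(z,U)` by `sib y z X` and `G.Adj Y Z`.
-/

namespace Pool.H90TC

open Pool.H90SY

universe u

variable {V : Type u}

private theorem cv_pp {G : SimpleGraph V} {col : V → Fin 3} (hT : Tri G col) (hX : SqLoc G col)
    {L : Lev4 V} (hL : Good4 G col L) {z1 z2 : L.Y} {y : (nxt4 G col L).Y}
    (h1 : PR4 G col L z1 y) (h2 : PR4 G col L z2 y) :
    z1 = z2 ∨ ∃ e : V, L.sib z1 z2 e ∧
      (G.Adj e ((nxt4 G col L).ph y) ∨ G.Adj (L.ph z1) (L.ph z2)) := by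
  obtain ⟨p, hp1, hp2⟩ := h1
  obtain ⟨q, hq1, hq2⟩ := h2
  have h := (mk_eq4 hT hX hL p q).1 (hp1.trans hq1.symm)
  subst hp1
  subst hp2
  subst hq2
  exact h.2

private theorem cv_leg {G : SimpleGraph V} {col : V → Fin 3} {L : Lev4 V} {z : L.Y}
    {y : (nxt4 G col L).Y} (h : PR4 G col L z y) :
    Leg G col (L.ph z) ((nxt4 G col L).ph y) ∧ (nxt4 G col L).ph y ∉ L.dn z := by
  obtain ⟨p, h1, h2⟩ := h
  subst h1
  subst h2
  exact p.2

private theorem cv_dn {G : SimpleGraph V} {col : V → Fin 3} {L : Lev4 V} {z : L.Y}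
    {y : (nxt4 G col L).Y} (h : PR4 G col L z y) : L.ph z ∈ (nxt4 G col L).dn y := by
  obtain ⟨p, h1, h2⟩ := h
  exact ⟨p, h1, by rw [h2]⟩

private theorem cv_dn' {G : SimpleGraph V} {col : V → Fin 3} {L : Lev4 V} {d : V}
    {y : (nxt4 G col L).Y} (h : d ∈ (nxt4 G col L).dn y) :
    ∃ z : L.Y, PR4 G col L z y ∧ L.ph z = d := by
  obtain ⟨p, h1, h2⟩ := h
  exact ⟨p.1.1, ⟨p, h1, rfl⟩, h2⟩

private theorem cv_move {G : SimpleGraph V} {col : V → Fin 3} {L : Lev4 V} {z z2 : L.Y}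
    {y : (nxt4 G col L).Y} (h : PR4 G col L z y) {e : V} (h1 : L.sib z z2 e)
    (h2 : G.Adj e ((nxt4 G col L).ph y) ∨ G.Adj (L.ph z) (L.ph z2))
    (h3 : Leg G col (L.ph z2) ((nxt4 G col L).ph y)) (h4 : (nxt4 G col L).ph y ∉ L.dn z2) :
    PR4 G col L z2 y := by
  obtain ⟨p, hp1, hp2⟩ := h
  subst hp1
  subst hp2
  let q : Cand4 G col L := ⟨(z2, p.1.2), h3, h4⟩
  refine ⟨q, ?_, rfl⟩
  symm
  apply Quot.sound
  exact ⟨rfl, Or.inr ⟨e, h1, h2⟩⟩

private theorem cv_child {G : SimpleGraph V} {col : V → Fin 3} {L : Lev4 V} {z : L.Y} {v : V}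
    (h1 : Leg G col (L.ph z) v) (h2 : v ∉ L.dn z) :
    ∃ y : (nxt4 G col L).Y, PR4 G col L z y ∧ (nxt4 G col L).ph y = v := by
  let p : Cand4 G col L := ⟨(z, v), h1, h2⟩
  exact ⟨Quot.mk _ p, ⟨p, rfl, rfl⟩, rfl⟩

private theorem cv_chuniq {G : SimpleGraph V} {col : V → Fin 3} {L : Lev4 V} {z : L.Y}
    {y y' : (nxt4 G col L).Y} (h : PR4 G col L z y) (h' : PR4 G col L z y')
    (h2 : (nxt4 G col L).ph y = (nxt4 G col L).ph y') : y = y' := by
  obtain ⟨p, hp1, hp2⟩ := h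
  obtain ⟨q, hq1, hq2⟩ := h'
  subst hp1
  subst hq1
  exact Quot.sound ⟨h2, Or.inl (hp2.trans hq2.symm)⟩

private theorem cv_sibch {G : SimpleGraph V} {col : V → Fin 3} {L : Lev4 V} {z : L.Y}
    {y y' : (nxt4 G col L).Y} (h : PR4 G col L z y) (h' : PR4 G col L z y') :
    (nxt4 G col L).sib y y' (L.ph z) := by
  obtain ⟨p, hp1, hp2⟩ := h
  obtain ⟨q, hq1, hq2⟩ := h'
  exact ⟨p, q, hp1, hq1, hp2.trans hq2.symm, by rw [hp2]⟩

private theorem cv_sibpar {G : SimpleGraph V} {col : V → Fin 3} {L : Lev4 V}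
    {y y' : (nxt4 G col L).Y} {d : V} (h : (nxt4 G col L).sib y y' d) :
    ∃ z : L.Y, PR4 G col L z y ∧ PR4 G col L z y' ∧ L.ph z = d := by
  obtain ⟨p, q, h1, h2, h3, h4⟩ := h
  exact ⟨p.1.1, ⟨p, h1, rfl⟩, ⟨q, h2, h3.symm⟩, h4⟩

private theorem cv_paruniq {G : SimpleGraph V} {col : V → Fin 3} (hT : Tri G col)
    (hX : SqLoc G col) {L : Lev4 V} (hL : Good4 G col L) {z1 z2 : L.Y}
    {y : (nxt4 G col L).Y} (h1 : PR4 G col L z1 y) (h2 : PR4 G col L z2 y)
    (h3 : L.ph z1 = L.ph z2) : z1 = z2 := by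
  rcases cv_pp hT hX hL h1 h2 with h | ⟨e, h, -⟩
  · exact h
  · exact hL.sib_unique _ _ _ h h3

private theorem cv_nc4 {G : SimpleGraph V} {col : V → Fin 3} (hX : SqLoc G col) {z : V}
    (hz : col z ≠ 1) : NC4 G z := by
  have h : col z = 0 ∨ col z = 2 := by
    generalize col z = c at *
    fin_cases c
    · exact Or.inl rfl
    · exact absurd rfl hz
    · exact Or.inr rfl
  rcases h with h | h
  · exact hX.a4 z h
  · exact hX.c4 z h

/-- two legs at `y` and a leg at `z` with the diagonal `x w` or `y z` -/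
private theorem cv_type {G : SimpleGraph V} {col : V → Fin 3} (hT : Tri G col) {X Y Z U : V}
    (h1 : Leg G col X Y) (h2 : Leg G col X Z) (h3 : Leg G col Y U) (_h4 : Leg G col Z U)
    (h : G.Adj X U ∨ G.Adj Y Z) :
    (G.Adj X U ∧ col X ≠ 1 ∧ col U ≠ 1 ∧ col Y = 1 ∧ col Z = 1) ∨
      (G.Adj Y Z ∧ col X = 1 ∧ col U = 1 ∧ col Y ≠ 1 ∧ col Z ≠ 1) := by
  have a1 := hT.proper _ _ h1.1
  have a2 := hT.proper _ _ h2.1
  have a3 := hT.proper _ _ h3.1
  have b1 := h1.2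
  have b2 := h2.2
  have b3 := h3.2
  by_cases hx : col X = 1
  · right
    have c1 : col Y ≠ 1 := fun h => a1 (hx.trans h.symm)
    have c2 : col Z ≠ 1 := fun h => a2 (hx.trans h.symm)
    have c3 : col U = 1 := b3.resolve_left c1
    refine ⟨?_, hx, c3, c1, c2⟩
    rcases h with h | h
    · exact absurd (hx.trans c3.symm) (hT.proper _ _ h)
    · exact h
  · left
    have c1 : col Y = 1 := b1.resolve_left hx
    have c2 : col Z = 1 := b2.resolve_left hx
    have c3 : col U ≠ 1 := fun h => a3 (c1.trans h.symm)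
    refine ⟨?_, hx, c3, c1, c2⟩
    rcases h with h | h
    · exact h
    · exact absurd (c1.trans c2.symm) (hT.proper _ _ h)

private theorem cv_legsymm {G : SimpleGraph V} {col : V → Fin 3} {u v : V}
    (h : Leg G col u v) : Leg G col v u := ⟨h.1.symm, h.2.symm⟩

section

variable {G : SimpleGraph V} {col : V → Fin 3} {x0 : V}

private theorem cv_symm {a b : YY4 G col x0} (h : EE4 G col x0 a b) : EE4 G col x0 b a := by
  cases h with
  | up h => exact EE4.dn h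
  | dn h => exact EE4.up h

private theorem cv_adj {a b : YY4 G col x0} (h : EE4 G col x0 a b) :
    Leg G col (phi4 G col x0 a) (phi4 G col x0 b) := by
  cases h with
  | up h => exact (cv_leg h).1
  | dn h => exact cv_legsymm (cv_leg h).1

private theorem cv_ex (a : YY4 G col x0) (v : V) (hv : Leg G col (phi4 G col x0 a) v) :
    ∃ b : YY4 G col x0, EE4 G col x0 a b ∧ phi4 G col x0 b = v := by
  obtain ⟨n, y⟩ := a
  change Leg G col ((Lv4 G col x0 n).ph y) v at hv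
  by_cases h1 : v ∈ (Lv4 G col x0 n).dn y
  · cases n with
    | zero => exact absurd h1 (Set.notMem_empty v)
    | succ n =>
      obtain ⟨z, h2, h3⟩ := cv_dn' h1
      exact ⟨⟨n, z⟩, EE4.dn h2, h3⟩
  · obtain ⟨s, h2, h3⟩ := cv_child hv h1
    exact ⟨⟨n + 1, s⟩, EE4.up h2, h3⟩

private theorem cv_uniq (hT : Tri G col) (hX : SqLoc G col) (a b c : YY4 G col x0)
    (hab : EE4 G col x0 a b) (hac : EE4 G col x0 a c)
    (hbc : phi4 G col x0 b = phi4 G col x0 c) : b = c := by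
  have hg : ∀ n, Good4 G col (Lv4 G col x0 n) := good4_Lv hT hX x0
  cases hab with
  | @up n z y h =>
    cases hac with
    | @up _ _ w h' => rw [cv_chuniq h h' hbc]
    | @dn m w _ h' =>
      exfalso
      apply (cv_leg h).2
      have h1 := cv_dn h'
      have h2 : (nxt4 G col (Lv4 G col x0 (m + 1))).ph y = (Lv4 G col x0 m).ph w := hbc
      rw [h2]
      exact h1
  | @dn n z y h =>
    cases hac with
    | @up _ _ w h' =>
      exfalso
      apply (cv_leg h').2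
      have h1 := cv_dn h
      have h2 : (Lv4 G col x0 n).ph z = (nxt4 G col (Lv4 G col x0 (n + 1))).ph w := hbc
      rw [← h2]
      exact h1
    | @dn _ w _ h' => rw [cv_paruniq hT hX (hg n) h h' hbc]

private theorem cv_common {n : ℕ} {y z : (Lv4 G col x0 n).Y} {d : V}
    (h : (Lv4 G col x0 n).sib y z d) :
    ∃ t : YY4 G col x0, EE4 G col x0 ⟨n, y⟩ t ∧ EE4 G col x0 ⟨n, z⟩ t ∧
      phi4 G col x0 t = d := by
  cases n with
  | zero => exact h.elim
  | succ n =>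
    obtain ⟨t, h1, h2, h3⟩ := cv_sibpar h
    exact ⟨⟨n, t⟩, EE4.dn h1, EE4.dn h2, h3⟩

/-- both parents -/
private theorem cv_A (hT : Tri G col) (hX : SqLoc G col) {n : ℕ} {y z : (Lv4 G col x0 n).Y}
    {x : (Lv4 G col x0 (n + 1)).Y} (hy : PR4 G col (Lv4 G col x0 n) y x)
    (hz : PR4 G col (Lv4 G col x0 n) z x) {w : YY4 G col x0}
    (hw : EE4 G col x0 ⟨n, y⟩ w)
    (hleg : Leg G col ((Lv4 G col x0 n).ph z) (phi4 G col x0 w))
    (hd : G.Adj ((Lv4 G col x0 (n + 1)).ph x) (phi4 G col x0 w) ∨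
      G.Adj ((Lv4 G col x0 n).ph y) ((Lv4 G col x0 n).ph z))
    (hYZ : (Lv4 G col x0 n).ph y ≠ (Lv4 G col x0 n).ph z) :
    EE4 G col x0 ⟨n, z⟩ w := by
  have hg : ∀ n, Good4 G col (Lv4 G col x0 n) := good4_Lv hT hX x0
  have lxy := cv_legsymm (cv_leg hy).1
  have lxz := cv_legsymm (cv_leg hz).1
  have lyw : Leg G col ((Lv4 G col x0 n).ph y) (phi4 G col x0 w) := cv_adj hw
  have hne : y ≠ z := fun h => hYZ (by rw [h])
  obtain ⟨e, he, he2⟩ := (cv_pp hT hX (hg n) hy hz).resolve_left hne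
  have ey := (hg n).sib_dn _ _ _ he
  have ez := (hg n).sib_dn _ _ _ ((hg n).sib_symm _ _ _ he)
  have ly := (hg n).leg _ _ ey
  have lz := (hg n).leg _ _ ez
  by_cases hUe : e = phi4 G col x0 w
  · obtain ⟨t, h1, h2, h3⟩ := cv_common he
    have h4 := cv_uniq hT hX _ _ _ h1 hw (h3.trans hUe)
    rw [← h4]
    exact h2
  · rcases cv_type hT lxy lxz lyw hleg hd with ⟨c1, c2, c3, c4, c5⟩ | ⟨c1, c2, c3, c4, c5⟩
    · exfalso
      have he3 : G.Adj e ((nxt4 G col (Lv4 G col x0 n)).ph x) := by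
        rcases he2 with h | h
        · exact h
        · exact absurd (c4.trans c5.symm) (hT.proper _ _ h)
      exact cv_nc4 hX c2 _ _ _ _ lxy.1 lxz.1 he3.symm c1 ly.1 lz.1.symm hleg.1 lyw.1.symm
        hYZ hUe
    · have n1 : phi4 G col x0 w ∉ (Lv4 G col x0 n).dn y := fun h =>
        hUe ((hg n).single _ _ _ _ he c1 h hleg.1.symm).symm
      have n2 : phi4 G col x0 w ∉ (Lv4 G col x0 n).dn z := fun h =>
        hUe ((hg n).single _ _ _ _ ((hg n).sib_symm _ _ _ he) c1.symm h lyw.1.symm).symm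
      obtain ⟨s, h1, h2⟩ := cv_child lyw n1
      have h3 : (⟨n + 1, s⟩ : YY4 G col x0) = w := cv_uniq hT hX _ _ _ (EE4.up h1) hw h2
      subst h3
      exact EE4.up (cv_move h1 he (Or.inr c1) hleg n2)

/-- `y` parent, `z` child -/
private theorem cv_B (hT : Tri G col) (hX : SqLoc G col) {n : ℕ} {y : (Lv4 G col x0 n).Y}
    {x : (Lv4 G col x0 (n + 1)).Y} {z : (Lv4 G col x0 (n + 2)).Y}
    (hy : PR4 G col (Lv4 G col x0 n) y x) (hz : PR4 G col (Lv4 G col x0 (n + 1)) x z)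
    {w : YY4 G col x0} (hw : EE4 G col x0 ⟨n, y⟩ w)
    (hleg : Leg G col ((Lv4 G col x0 (n + 2)).ph z) (phi4 G col x0 w))
    (hd : G.Adj ((Lv4 G col x0 (n + 1)).ph x) (phi4 G col x0 w) ∨
      G.Adj ((Lv4 G col x0 n).ph y) ((Lv4 G col x0 (n + 2)).ph z)) :
    EE4 G col x0 ⟨n + 2, z⟩ w := by
  have hg : ∀ n, Good4 G col (Lv4 G col x0 n) := good4_Lv hT hX x0
  have lxy := cv_legsymm (cv_leg hy).1
  have lxz := (cv_leg hz).1
  have nz := (cv_leg hz).2
  have ydn := cv_dn hy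
  have lyw : Leg G col ((Lv4 G col x0 n).ph y) (phi4 G col x0 w) := cv_adj hw
  have key : ∀ x2 : (Lv4 G col x0 (n + 1)).Y,
      (Lv4 G col x0 (n + 1)).sib x x2 ((Lv4 G col x0 n).ph y) →
      (Lv4 G col x0 (n + 1)).ph x2 = phi4 G col x0 w → (⟨n + 1, x2⟩ : YY4 G col x0) = w := by
    intro x2 h1 h2
    obtain ⟨t, h3, h4, h5⟩ := cv_sibpar h1
    have h6 : t = y := cv_paruniq hT hX (hg n) h3 hy h5
    subst h6
    exact cv_uniq hT hX _ _ _ (EE4.up h4) hw h2
  rcases cv_type hT lxy lxz lyw hleg hd with ⟨c1, c2, c3, c4, c5⟩ | ⟨c1, c2, c3, c4, c5⟩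
  · rcases (hg (n + 1)).lat x _ _ c2 ydn c3 c1 lyw.1 with h | ⟨x2, h1, h2⟩
    · exact absurd (h _ c5 lxz.1 hleg.1) nz
    · have h3 := key x2 h1 h2
      subst h3
      refine EE4.dn (cv_move hz h1 (Or.inr c1) (cv_legsymm hleg) ?_)
      intro h4
      have h5 := (hg (n + 1)).single _ _ _ _ ((hg (n + 1)).sib_symm _ _ _ h1) c1.symm h4
        lxz.1.symm
      rw [← h5] at ydn
      exact nz ydn
  · obtain ⟨x2, h1, h2⟩ := (hg (n + 1)).fan x _ _ c2 ydn lxz.1 c1 nz _ c3 lyw.1.symm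
      hleg.1.symm
    have h3 := key x2 h1 h2
    subst h3
    refine EE4.dn (cv_move hz h1 (Or.inl c1) (cv_legsymm hleg) ?_)
    intro h4
    exact nz ((hg (n + 1)).same _ _ _ _ c2 h1 c1 lxz.1 h4)

/-- both children -/
private theorem cv_D (hT : Tri G col) (hX : SqLoc G col) {n : ℕ} {x : (Lv4 G col x0 n).Y}
    {y z : (Lv4 G col x0 (n + 1)).Y} (hy : PR4 G col (Lv4 G col x0 n) x y)
    (hz : PR4 G col (Lv4 G col x0 n) x z) {w : YY4 G col x0}
    (hw : EE4 G col x0 ⟨n + 1, y⟩ w)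
    (hleg : Leg G col ((Lv4 G col x0 (n + 1)).ph z) (phi4 G col x0 w))
    (hd : G.Adj ((Lv4 G col x0 n).ph x) (phi4 G col x0 w) ∨
      G.Adj ((Lv4 G col x0 (n + 1)).ph y) ((Lv4 G col x0 (n + 1)).ph z))
    (hUX : phi4 G col x0 w ≠ (Lv4 G col x0 n).ph x) :
    EE4 G col x0 ⟨n + 1, z⟩ w := by
  have hg : ∀ n, Good4 G col (Lv4 G col x0 n) := good4_Lv hT hX x0
  have lxy := (cv_leg hy).1
  have lxz := (cv_leg hz).1
  have ny := (cv_leg hy).2
  have nz := (cv_leg hz).2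
  have lyw : Leg G col ((Lv4 G col x0 (n + 1)).ph y) (phi4 G col x0 w) := cv_adj hw
  -- the situation when `U` is the image of a parent of a child of `x`
  have key1 : ∀ (a b : (Lv4 G col x0 (n + 1)).Y), PR4 G col (Lv4 G col x0 n) x a →
      PR4 G col (Lv4 G col x0 n) x b → Leg G col ((Lv4 G col x0 (n + 1)).ph b) (phi4 G col x0 w) →
      G.Adj ((Lv4 G col x0 n).ph x) (phi4 G col x0 w) →
      phi4 G col x0 w ∈ (Lv4 G col x0 (n + 1)).dn a →
      ∃ x2 : (Lv4 G col x0 n).Y, (Lv4 G col x0 n).ph x2 = phi4 G col x0 w ∧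
        PR4 G col (Lv4 G col x0 n) x2 a ∧ PR4 G col (Lv4 G col x0 n) x2 b := by
    intro a b ha hb lb hXU hU
    obtain ⟨x2, h1, h2⟩ := cv_dn' hU
    refine ⟨x2, h2, h1, ?_⟩
    have hne : x ≠ x2 := by
      rintro rfl
      exact hUX h2.symm
    obtain ⟨e, he, -⟩ := (cv_pp hT hX (hg n) ha h1).resolve_left hne
    have ex := (hg n).sib_dn _ _ _ he
    rw [← h2] at hXU lb
    refine cv_move hb he (Or.inr hXU) (cv_legsymm lb) ?_
    intro h4
    have h5 := (hg n).single _ _ _ _ ((hg n).sib_symm _ _ _ he) hXU.symm h4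
      (cv_leg hb).1.1.symm
    have h6 := (cv_leg hb).2
    change (Lv4 G col x0 (n + 1)).ph b ∉ _ at h6
    change (Lv4 G col x0 (n + 1)).ph b = e at h5
    rw [h5] at h6
    exact h6 ex
  have key2 : ∀ (a b : (Lv4 G col x0 (n + 1)).Y), PR4 G col (Lv4 G col x0 n) x a →
      PR4 G col (Lv4 G col x0 n) x b → Leg G col ((Lv4 G col x0 (n + 1)).ph a) (phi4 G col x0 w) →
      Leg G col ((Lv4 G col x0 (n + 1)).ph b) (phi4 G col x0 w) →
      G.Adj ((Lv4 G col x0 (n + 1)).ph a) ((Lv4 G col x0 (n + 1)).ph b) →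
      col ((Lv4 G col x0 n).ph x) = 1 → col (phi4 G col x0 w) = 1 →
      col ((Lv4 G col x0 (n + 1)).ph a) ≠ 1 →
      phi4 G col x0 w ∉ (Lv4 G col x0 (n + 1)).dn a := by
    intro a b ha hb la lb hab c2 c3 c4 hU
    obtain ⟨x2, h1, h2⟩ := cv_dn' hU
    have hne : x ≠ x2 := by
      rintro rfl
      exact hUX h2.symm
    obtain ⟨e, he, he2⟩ := (cv_pp hT hX (hg n) ha h1).resolve_left hne
    have he3 : G.Adj e ((nxt4 G col (Lv4 G col x0 n)).ph a) := by
      rcases he2 with h | h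
      · exact h
      · rw [h2] at h
        exact absurd (c2.trans c3.symm) (hT.proper _ _ h)
    have ex := (hg n).sib_dn _ _ _ he
    have ex2 := (hg n).sib_dn _ _ _ ((hg n).sib_symm _ _ _ he)
    have le := ((hg n).leg _ _ ex).1
    have le2 := ((hg n).leg _ _ ex2).1
    rw [h2] at le2
    have hab' : G.Adj ((Lv4 G col x0 n).ph x) ((Lv4 G col x0 (n + 1)).ph b) := (cv_leg hb).1.1
    have hxa : G.Adj ((Lv4 G col x0 n).ph x) ((Lv4 G col x0 (n + 1)).ph a) := (cv_leg ha).1.1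
    refine cv_nc4 hX c4 _ _ _ _ hxa.symm la.1 he3.symm hab le le2.symm lb.1.symm hab'.symm
      (Ne.symm hUX) ?_
    intro h5
    have h6 := (cv_leg hb).2
    change (Lv4 G col x0 (n + 1)).ph b ∉ _ at h6
    rw [← h5] at h6
    exact h6 ex
  have key3 : phi4 G col x0 w ∉ (Lv4 G col x0 (n + 1)).dn y →
      phi4 G col x0 w ∉ (Lv4 G col x0 (n + 1)).dn z → EE4 G col x0 ⟨n + 1, z⟩ w := by
    intro n1 n2
    obtain ⟨s, h1, h2⟩ := cv_child lyw n1
    have h3 : (⟨n + 1 + 1, s⟩ : YY4 G col x0) = w := cv_uniq hT hX _ _ _ (EE4.up h1) hw h2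
    subst h3
    exact EE4.up (cv_move h1 (cv_sibch hy hz) hd hleg n2)
  rcases cv_type hT lxy lxz lyw hleg hd with ⟨c1, c2, c3, c4, c5⟩ | ⟨c1, c2, c3, c4, c5⟩
  · by_cases hUy : phi4 G col x0 w ∈ (Lv4 G col x0 (n + 1)).dn y
    · obtain ⟨x2, h1, h2, h3⟩ := key1 y z hy hz hleg c1 hUy
      have h4 : (⟨n, x2⟩ : YY4 G col x0) = w := cv_uniq hT hX _ _ _ (EE4.dn h2) hw h1
      subst h4
      exact EE4.dn h3
    · by_cases hUz : phi4 G col x0 w ∈ (Lv4 G col x0 (n + 1)).dn z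
      · obtain ⟨x2, h1, h2, h3⟩ := key1 z y hz hy lyw c1 hUz
        have h4 : (⟨n, x2⟩ : YY4 G col x0) = w := cv_uniq hT hX _ _ _ (EE4.dn h3) hw h1
        subst h4
        exact EE4.dn h2
      · exact key3 hUy hUz
  · exact key3 (key2 y z hy hz lyw hleg c1 c2 c3 c4)
      (key2 z y hz hy hleg lyw c1.symm c2 c3 c5)

end

theorem cov_YY4 {G : SimpleGraph V} {col : V → Fin 3} (hT : Tri G col) (hX : SqLoc G col)
    (x0 : V) : Cov4 G col (YY4 G col x0) (phi4 G col x0) (EE4 G col x0) := by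
  refine ⟨fun a b h => cv_symm h, fun a b h => cv_adj h, cv_ex, cv_uniq hT hX, ?_⟩
  intro x y z w hxy hxz hyw hleg hd
  by_cases hYZ : phi4 G col x0 y = phi4 G col x0 z
  · rw [← cv_uniq hT hX _ _ _ hxy hxz hYZ]
    exact hyw
  by_cases hUX : phi4 G col x0 w = phi4 G col x0 x
  · rw [cv_uniq hT hX _ _ _ hyw (cv_symm hxy) hUX]
    exact cv_symm hxz
  cases hxy with
  | @up n _ y hy =>
    cases hxz with
    | @up _ _ z hz => exact cv_D hT hX hy hz hyw hleg hd hUX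
    | @dn m z _ hz =>
      obtain ⟨w', h1, h2⟩ := cv_ex (G := G) (col := col) (x0 := x0) ⟨m, z⟩
        (phi4 G col x0 w) hleg
      have h3 : EE4 G col x0 ⟨m + 1 + 1, y⟩ w' := by
        refine cv_B hT hX hz hy h1 ?_ ?_
        · rw [h2]
          exact cv_adj hyw
        · rw [h2]
          rcases hd with hd | hd
          · exact Or.inl hd
          · exact Or.inr hd.symm
      have h4 := cv_uniq hT hX _ _ _ hyw h3 h2.symm
      rw [h4]
      exact h1
  | @dn n y _ hy =>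
    cases hxz with
    | @up _ _ z hz => exact cv_B hT hX hy hz hyw hleg hd
    | @dn _ z _ hz => exact cv_A hT hX hy hz hyw hleg hd hYZ

end Pool.H90TC
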