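import Pool.Agent.H90.TC.Tri

set_option autoImplicit false

/-!
Complexes of type (2,4,4). Colour 1 has the angle 90, colours 0 and 2 have the angle 45. Legs are the
edges with an end of colour 1, hypotenuses are the edges between the colours 0 and 2. Levels are
measured by the leg graph, which is bipartite (colour 1 against colours 0, 2). Squares are the
4-cycles of legs one of whose diagonals is a hypotenuse.
-/

namespace Pool.H90TC

open Pool.H90SY

universe u

variable {V : Type u}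

/-- legs -/
def Leg (G : SimpleGraph V) (col : V → Fin 3) (u v : V) : Prop :=
  G.Adj u v ∧ (col u = 1 ∨ col v = 1)

/-- the leg graph -/
def legG (G : SimpleGraph V) (col : V → Fin 3) : SimpleGraph V where
  Adj := Leg G col
  symm := ⟨fun _ _ h => ⟨h.1.symm, h.2.symm⟩⟩
  loopless := ⟨fun _ h => h.1.ne rfl⟩

/-- An abstract covering of the square complex. -/
structure Cov4 (G : SimpleGraph V) (col : V → Fin 3) (W : Type u) (f : W → V)
    (E : W → W → Prop) : Prop where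
  symm : ∀ a b : W, E a b → E b a
  adj : ∀ a b : W, E a b → Leg G col (f a) (f b)
  ex : ∀ (a : W) (v : V), Leg G col (f a) v → ∃ b : W, E a b ∧ f b = v
  uniq : ∀ a b c : W, E a b → E a c → f b = f c → b = c
  sq : ∀ x y z w : W, E x y → E x z → E y w → Leg G col (f z) (f w) →
    (G.Adj (f x) (f w) ∨ G.Adj (f y) (f z)) → E z w

/-- A level of the layered covering: its vertices, their images in `V`, the images of the parents,
and the relation `sib y z d`: `y` and `z` have a common parent with image `d`. -/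
structure Lev4 (V : Type u) where
  Y : Type u
  ph : Y → V
  dn : Y → Set V
  sib : Y → Y → V → Prop

/-- pairs (vertex of the level, upper neighbour) -/
def Cand4 (G : SimpleGraph V) (col : V → Fin 3) (L : Lev4 V) : Type u :=
  {p : L.Y × V // Leg G col (L.ph p.1) p.2 ∧ p.2 ∉ L.dn p.1}

/-- the identification of such pairs -/
def rl4 (G : SimpleGraph V) (col : V → Fin 3) (L : Lev4 V) (p q : Cand4 G col L) : Prop :=
  p.1.2 = q.1.2 ∧ (p.1.1 = q.1.1 ∨ ∃ d : V, L.sib p.1.1 q.1.1 d ∧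
    (G.Adj d p.1.2 ∨ G.Adj (L.ph p.1.1) (L.ph q.1.1)))

/-- the next level -/
def nxt4 (G : SimpleGraph V) (col : V → Fin 3) (L : Lev4 V) : Lev4 V where
  Y := Quot (rl4 G col L)
  ph := Quot.lift (fun p => p.1.2) (fun _ _ h => h.1)
  dn := fun y => {u | ∃ p : Cand4 G col L, Quot.mk (rl4 G col L) p = y ∧ L.ph p.1.1 = u}
  sib := fun y z d => ∃ p q : Cand4 G col L, Quot.mk (rl4 G col L) p = y ∧
    Quot.mk (rl4 G col L) q = z ∧ p.1.1 = q.1.1 ∧ L.ph p.1.1 = d

/-- the bottom level -/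
def bot4 (x0 : V) : Lev4 V where
  Y := PUnit
  ph := fun _ => x0
  dn := fun _ => ∅
  sib := fun _ _ _ => False

/-- the invariants of a level -/
structure Good4 (G : SimpleGraph V) (col : V → Fin 3) (L : Lev4 V) : Prop where
  leg : ∀ (y : L.Y) (d : V), d ∈ L.dn y → Leg G col (L.ph y) d
  sib_symm : ∀ (y z : L.Y) (d : V), L.sib y z d → L.sib z y d
  sib_dn : ∀ (y z : L.Y) (d : V), L.sib y z d → d ∈ L.dn y
  sib_refl : ∀ (y : L.Y) (d : V), d ∈ L.dn y → L.sib y y d
  sib_trans : ∀ (y z w : L.Y) (d : V), L.sib y z d → L.sib z w d → L.sib y w d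
  sib_unique : ∀ (y z : L.Y) (d : V), L.sib y z d → L.ph y = L.ph z → y = z
  one : ∀ (y : L.Y) (d e : V), col (L.ph y) = 1 → d ∈ L.dn y → e ∈ L.dn y → d ≠ e → G.Adj d e
  fold : ∀ (y : L.Y) (d e : V), col (L.ph y) ≠ 1 → d ∈ L.dn y → e ∈ L.dn y → d ≠ e →
    ∃ c : V, col c ≠ 1 ∧ G.Adj (L.ph y) c ∧
      ∀ b : V, b ∈ L.dn y ↔ (col b = 1 ∧ G.Adj (L.ph y) b ∧ G.Adj b c)
  lat : ∀ (y : L.Y) (d c : V), col (L.ph y) ≠ 1 → d ∈ L.dn y → col c ≠ 1 → G.Adj (L.ph y) c →
    G.Adj d c → (∀ b : V, col b = 1 → G.Adj (L.ph y) b → G.Adj b c → b ∈ L.dn y) ∨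
      ∃ z : L.Y, L.sib y z d ∧ L.ph z = c
  fan : ∀ (y : L.Y) (d c : V), col (L.ph y) = 1 → d ∈ L.dn y → G.Adj (L.ph y) c → G.Adj d c →
    c ∉ L.dn y → ∀ b : V, col b = 1 → G.Adj b d → G.Adj b c → ∃ z : L.Y, L.sib y z d ∧ L.ph z = b
  single : ∀ (y z : L.Y) (d b : V), L.sib y z d → G.Adj (L.ph y) (L.ph z) → b ∈ L.dn y →
    G.Adj b (L.ph z) → b = d
  same : ∀ (y z : L.Y) (d c : V), col (L.ph y) = 1 → L.sib y z d → G.Adj d c →
    G.Adj (L.ph y) c → c ∈ L.dn z → c ∈ L.dn y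

/-- the levels -/
def Lv4 (G : SimpleGraph V) (col : V → Fin 3) (x0 : V) : ℕ → Lev4 V
  | 0 => bot4 x0
  | n + 1 => nxt4 G col (Lv4 G col x0 n)

/-- the layered covering -/
def YY4 (G : SimpleGraph V) (col : V → Fin 3) (x0 : V) : Type u := Σ n : ℕ, (Lv4 G col x0 n).Y

/-- the covering map -/
def phi4 (G : SimpleGraph V) (col : V → Fin 3) (x0 : V) (a : YY4 G col x0) : V :=
  (Lv4 G col x0 a.1).ph a.2

/-- `z` (level `n`) is a parent of `y` (level `n + 1`) -/
def PR4 (G : SimpleGraph V) (col : V → Fin 3) (L : Lev4 V) (z : L.Y) (y : (nxt4 G col L).Y) : Prop :=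
  ∃ p : Cand4 G col L, Quot.mk (rl4 G col L) p = y ∧ p.1.1 = z

/-- adjacency in the layered covering -/
inductive EE4 (G : SimpleGraph V) (col : V → Fin 3) (x0 : V) :
    YY4 G col x0 → YY4 G col x0 → Prop
  | up {n : ℕ} {z : (Lv4 G col x0 n).Y} {y : (Lv4 G col x0 (n + 1)).Y} :
      PR4 G col (Lv4 G col x0 n) z y → EE4 G col x0 ⟨n, z⟩ ⟨n + 1, y⟩
  | dn {n : ℕ} {z : (Lv4 G col x0 n).Y} {y : (Lv4 G col x0 (n + 1)).Y} :
      PR4 G col (Lv4 G col x0 n) z y → EE4 G col x0 ⟨n + 1, y⟩ ⟨n, z⟩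

/-- `d` is a parent of `v` in the leg graph -/
def Par4 (G : SimpleGraph V) (col : V → Fin 3) (x0 : V) (v d : V) : Prop :=
  Leg G col v d ∧ (legG G col).dist x0 d + 1 = (legG G col).dist x0 v

/-- The structure of the levels. -/
structure Lay4 (G : SimpleGraph V) (col : V → Fin 3) (x0 : V) : Prop where
  conn : (legG G col).Connected
  step : ∀ u v : V, Leg G col u v → (legG G col).dist x0 u = (legG G col).dist x0 v + 1 ∨
    (legG G col).dist x0 v = (legG G col).dist x0 u + 1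
  one : ∀ v d e : V, col v = 1 → Par4 G col x0 v d → Par4 G col x0 v e → d ≠ e → G.Adj d e
  fold : ∀ v d e : V, col v ≠ 1 → Par4 G col x0 v d → Par4 G col x0 v e → d ≠ e →
    ∃ c : V, col c ≠ 1 ∧ G.Adj v c ∧
      (legG G col).dist x0 c + 2 = (legG G col).dist x0 v ∧
      ∀ b : V, Par4 G col x0 v b ↔ (col b = 1 ∧ G.Adj v b ∧ G.Adj b c)
  hyp : ∀ a c : V, col a ≠ 1 → col c ≠ 1 → G.Adj a c →
    (legG G col).dist x0 a = (legG G col).dist x0 c →
    ∃ b : V, Par4 G col x0 a b ∧ Par4 G col x0 c b ∧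
      ∀ b' : V, Par4 G col x0 a b' → Par4 G col x0 c b' → b' = b

end Pool.H90TC
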