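import Pool.Agent.H90.TC.Sq.Defs

set_option autoImplicit false

/-!
Every edge of `G` is a leg or a hypotenuse, and a hypotenuse is replaced by two legs (`pure`,
`proper`). So the leg graph is connected, `(legG G col).dist ≤ 2 G.dist`, and `G.dist ≤ (legG G col).dist`
since legs are edges.
-/

namespace Pool.H90TC

open Pool.H90SY

universe u

variable {V : Type u}

private theorem dist_third {a b c : Fin 3} (hab : a ≠ b) (hac : a ≠ c) (hbc : b ≠ c)
    (ha : a ≠ 1) (hb : b ≠ 1) : c = 1 := by
  have h1 := a.2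
  have h2 := b.2
  have h3 := c.2
  simp only [ne_eq, Fin.ext_iff, Fin.val_one] at *
  omega

private theorem dist_edge {G : SimpleGraph V} {col : V → Fin 3} (hT : Tri G col) {u v : V}
    (h : G.Adj u v) : ∃ q : (legG G col).Walk u v, q.length ≤ 2 := by
  by_cases h1 : col u = 1 ∨ col v = 1
  · have h2 : (legG G col).Adj u v := ⟨h, h1⟩
    exact ⟨SimpleGraph.Walk.cons h2 SimpleGraph.Walk.nil, by simp⟩
  · push Not at h1
    obtain ⟨w, h2, h3⟩ := hT.pure u v h
    have h4 : col w = 1 := dist_third (hT.proper _ _ h) (hT.proper _ _ h2) (hT.proper _ _ h3)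
      h1.1 h1.2
    have h5 : (legG G col).Adj u w := ⟨h2, Or.inr h4⟩
    have h6 : (legG G col).Adj w v := ⟨h3.symm, Or.inl h4⟩
    exact ⟨SimpleGraph.Walk.cons h5 (SimpleGraph.Walk.cons h6 SimpleGraph.Walk.nil), by simp⟩

private theorem dist_walk {G : SimpleGraph V} {col : V → Fin 3} (hT : Tri G col) {u v : V}
    (p : G.Walk u v) : ∃ q : (legG G col).Walk u v, q.length ≤ 2 * p.length := by
  induction p with
  | nil => exact ⟨SimpleGraph.Walk.nil, by simp⟩
  | cons h p ih =>
    obtain ⟨q, hq⟩ := ih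
    obtain ⟨r, hr⟩ := dist_edge hT h
    refine ⟨r.append q, ?_⟩
    rw [SimpleGraph.Walk.length_append, SimpleGraph.Walk.length_cons]
    omega

theorem leg_conn {G : SimpleGraph V} {col : V → Fin 3} (hT : Tri G col) (hc : G.Connected) :
    (legG G col).Connected := by
  have := hc.nonempty
  refine ⟨fun u v => ?_⟩
  obtain ⟨p, _⟩ := hc.exists_walk_length_eq_dist u v
  obtain ⟨q, _⟩ := dist_walk hT p
  exact ⟨q⟩

theorem leg_dist_le {G : SimpleGraph V} {col : V → Fin 3} (hT : Tri G col) (hc : G.Connected)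
    (u v : V) : (legG G col).dist u v ≤ 2 * G.dist u v := by
  obtain ⟨p, hp⟩ := hc.exists_walk_length_eq_dist u v
  obtain ⟨q, hq⟩ := dist_walk hT p
  rw [← hp]
  exact le_trans (SimpleGraph.dist_le q) hq

theorem le_leg_dist {G : SimpleGraph V} {col : V → Fin 3} (hT : Tri G col) (hc : G.Connected)
    (u v : V) : G.dist u v ≤ (legG G col).dist u v := by
  obtain ⟨q, hq⟩ := (leg_conn hT hc).exists_walk_length_eq_dist u v
  have hle : legG G col ≤ G := fun _ _ h => h.1
  rw [← hq]
  refine le_trans (SimpleGraph.dist_le (q.mapLe hle)) ?_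
  simp

end Pool.H90TC
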