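import Pool.Agent.H90.TC.Sq.Defs

set_option autoImplicit false

/-!
Coverings of the square complex are coverings of the triangle complex. Put
`E' w w' := G.Adj (f w) (f w') ∧ (E w w' ∨ (col (f w) ≠ 1 ∧ col (f w') ≠ 1 ∧ ∃ x, E w x ∧ E x w'))`.

Independence: let `f w = a`, `f w' = c` have colours different from 1, adjacent, `E w x`, `E x w'`
with `f x = b` (colour 1), and let `b'` be another common neighbour of `a, c` of colour 1, `x'` the
neighbour of `w` over `b'`. Then `E x' w'`: the field `sq` for `w, x, x', w'` (legs `a b`, `a b'`, `b c`,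
`b' c`, diagonal `a c`).
`symm`, `adj` clear. `ex`: for legs `ex`; for `a, c` both not of colour 1 a common neighbour exists by
`pure` (its colour is 1 by `proper`), lift twice. `uniq`: by independence both are reached over the
same `b`. `tri`: the three vertices have the colours 0, 1, 2. Center of colour 1: `E'` of the two
others by the center itself. Center `a` not of colour 1: the neighbour over `c` is reached over the
neighbour over `b` by independence, so these two are adjacent.
`cov4_inj`: apply `ScInj` to `E'`, `ReflTransGen E` implies `ReflTransGen E'`.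
-/

namespace Pool.H90TC

open Pool.H90SY

universe u

variable {V : Type u}

private theorem Sc_one_of : ∀ {a b c : Fin 3} (_ : a ≠ b) (_ : a ≠ c) (_ : b ≠ c) (_ : b ≠ 1)
    (_ : c ≠ 1), a = 1 := by
  intro a b c h1 h2 h3 h4 h5
  omega

private theorem Sc_one_of' {a b c : Fin 3} (h1 : a ≠ b) (h2 : a ≠ c) (h3 : b ≠ c) (ha : a ≠ 1) :
    (b = 1 ∧ c ≠ 1) ∨ (b ≠ 1 ∧ c = 1) := by
  omega

private theorem Sc_indep {G : SimpleGraph V} {col : V → Fin 3} {W : Type u} {f : W → V}
    {E : W → W → Prop} (hC : Cov4 G col W f E) {w w' x x' : W} (hw : col (f w) ≠ 1)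
    (hww : G.Adj (f w) (f w')) (h1 : E w x) (h2 : E x w') (h3 : E w x')
    (h4 : G.Adj (f x') (f w')) : E x' w' := by
  refine hC.sq w x x' w' h1 h3 h2 ⟨h4, Or.inl ?_⟩ (Or.inl hww)
  rcases (hC.adj _ _ h3).2 with h | h
  · exact absurd h hw
  · exact h

theorem cov_of_cov4 {G : SimpleGraph V} {col : V → Fin 3} (hT : Tri G col) {W : Type u} {f : W → V}
    {E : W → W → Prop} (hC : Cov4 G col W f E) :
    Cov G W f (fun w w' => G.Adj (f w) (f w') ∧
      (E w w' ∨ (col (f w) ≠ 1 ∧ col (f w') ≠ 1 ∧ ∃ x : W, E w x ∧ E x w'))) := by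
  refine ⟨?_, ?_, ?_, ?_, ?_⟩
  · rintro a b ⟨h1, h2⟩
    refine ⟨h1.symm, ?_⟩
    rcases h2 with h2 | ⟨h2, h3, x, h4, h5⟩
    · exact Or.inl (hC.symm _ _ h2)
    · exact Or.inr ⟨h3, h2, x, hC.symm _ _ h5, hC.symm _ _ h4⟩
  · rintro a b ⟨h1, _⟩
    exact h1
  · intro a v hav
    by_cases h : col (f a) = 1 ∨ col v = 1
    · obtain ⟨b, hb, hbv⟩ := hC.ex a v ⟨hav, h⟩
      refine ⟨b, ⟨?_, Or.inl hb⟩, hbv⟩
      rw [hbv]; exact hav
    · push Not at h
      obtain ⟨w, h1, h2⟩ := hT.pure _ _ hav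
      have hw : col w = 1 := Sc_one_of (hT.proper _ _ h1.symm) (hT.proper _ _ h2.symm)
        (hT.proper _ _ hav) h.1 h.2
      obtain ⟨x, hx, hxw⟩ := hC.ex a w ⟨h1, Or.inr hw⟩
      have h3 : Leg G col (f x) v := by
        rw [hxw]
        exact ⟨h2.symm, Or.inl hw⟩
      obtain ⟨b, hb, hbv⟩ := hC.ex x v h3
      refine ⟨b, ⟨?_, Or.inr ⟨h.1, ?_, x, hx, hb⟩⟩, hbv⟩
      · rw [hbv]; exact hav
      · rw [hbv]; exact h.2
  · rintro a b c ⟨h1, h2⟩ ⟨h3, h4⟩ hbc
    rcases h2 with h2 | ⟨h2, h5, x, h6, h7⟩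
    · rcases h4 with h4 | ⟨h4, h5, x, h6, h7⟩
      · exact hC.uniq _ _ _ h2 h4 hbc
      · rcases (hC.adj _ _ h2).2 with h | h
        · exact absurd h h4
        · rw [hbc] at h
          exact absurd h h5
    · rcases h4 with h4 | ⟨h4, h8, y, h9, h10⟩
      · rcases (hC.adj _ _ h4).2 with h | h
        · exact absurd h h2
        · rw [← hbc] at h
          exact absurd h h5
      · have h11 : G.Adj (f y) (f b) := by
          rw [hbc]
          exact (hC.adj _ _ h10).1
        exact hC.uniq y b c (Sc_indep hC h2 h1 h6 h7 h9 h11) h10 hbc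
  · rintro a b c ⟨h1, h2⟩ ⟨h3, h4⟩ hbc
    refine ⟨hbc, ?_⟩
    have hab := hT.proper _ _ h1
    have hac := hT.proper _ _ h3
    have hbc' := hT.proper _ _ hbc
    by_cases ha : col (f a) = 1
    · rcases h2 with h2 | ⟨h2, _⟩
      · rcases h4 with h4 | ⟨h4, _⟩
        · refine Or.inr ⟨?_, ?_, a, hC.symm _ _ h2, h4⟩
          · intro h; exact hab (ha.trans h.symm)
          · intro h; exact hac (ha.trans h.symm)
        · exact absurd ha h4
      · exact absurd ha h2
    · rcases Sc_one_of' hab hac hbc' ha with ⟨hb, hc⟩ | ⟨hb, hc⟩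
      · rcases h2 with h2 | ⟨_, h5, _⟩
        · rcases h4 with h4 | ⟨_, _, x, h6, h7⟩
          · rcases (hC.adj _ _ h4).2 with h | h
            · exact absurd h ha
            · exact absurd h hc
          · exact Or.inl (Sc_indep hC ha h3 h6 h7 h2 hbc)
        · exact absurd hb h5
      · rcases h4 with h4 | ⟨_, h5, _⟩
        · rcases h2 with h2 | ⟨_, _, x, h6, h7⟩
          · rcases (hC.adj _ _ h2).2 with h | h
            · exact absurd h ha
            · exact absurd h hb
          · exact Or.inl (hC.symm _ _ (Sc_indep hC ha h1 h6 h7 h4 hbc.symm))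
        · exact absurd hc h5

theorem cov4_inj {G : SimpleGraph V} {col : V → Fin 3} (hT : Tri G col) (hs : ScInj G)
    {W : Type u} {f : W → V} {E : W → W → Prop} (hC : Cov4 G col W f E) (w0 a b : W)
    (ha : Relation.ReflTransGen E w0 a) (hb : Relation.ReflTransGen E w0 b) (hab : f a = f b) :
    a = b := by
  have hm : ∀ p q : W, E p q → (G.Adj (f p) (f q) ∧
      (E p q ∨ (col (f p) ≠ 1 ∧ col (f q) ≠ 1 ∧ ∃ x : W, E p x ∧ E x q))) := fun p q h =>
    ⟨(hC.adj _ _ h).1, Or.inl h⟩
  exact hs W f _ (cov_of_cov4 hT hC) w0 a b (Relation.ReflTransGen.mono hm _ _ ha)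
    (Relation.ReflTransGen.mono hm _ _ hb) hab

end Pool.H90TC
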