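import Pool.Agent.H90.TC.Sq.Cov
import Pool.Agent.H90.TC.Sq.Sc
import Pool.Agent.H90.TC.Sq.Dist

set_option autoImplicit false

/-!
Proof (compare Pool/Agent/H90/SY/LG/LayY.lean). Let `w0 = ⟨0, unit⟩`. Every element of `YY4` is
reachable from `w0` (induction on the level, parents), so `phi4` is injective (`cov4_inj`), and
surjective (the leg graph is connected, `ex`). Legs `v w` of `G`: the elements over `v, w` are related
by `EE4` (`ex` and injectivity), hence their levels differ by exactly one. Let `lv v` be the level of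
the element over `v`; `(legG G col).dist x0 v = lv v` (at most: follow parents, at least: the level
changes by one in each step). `step` follows. `Par4 v d` iff the element over `d` is the parent of
the element over `v` iff `d ∈ dn` of it. `one`: the invariant `one`. `fold`: the invariant `fold` gives `c`
and the set of the parents `b` of `v` (`par ↔ col b = 1, adjacent to v and c`); for the level of `c`:
let `d ≠ e` be parents, representatives `(z1,v), (z2,v)` with `ph z1 = d`, `ph z2 = e`, by `mk_eq4`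
`sib z1 z2 c'` with `G.Adj c' v` (the other alternative is impossible, `d, e` have colour 1), `c'` is an
image of a common parent, so it has level `lv v - 2`; `d, e` are adjacent to `v, c, c'`, so `c = c'` by
`NC4` at `v`. `hyp`: `a, c` adjacent, not of colour 1, same level `n`. There is a common neighbour `b`
(`pure`), of level `n - 1` or `n + 1`. If `n + 1`: the element over `b` has the representatives
`(y_a, b), (y_c, b)`, so by `mk_eq4` `sib y_a y_c d`, and `d` is a common parent of `a` and `c`. So a common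
parent `b` exists, i.e. `sib y_a y_c b`, and `single` gives uniqueness.
-/

namespace Pool.H90TC

open Pool.H90SY

universe u

variable {V : Type u}

/-- every element of the layered covering is reachable from the base point -/
private theorem Lay4_reach (G : SimpleGraph V) (col : V → Fin 3) (x0 : V) (n : ℕ)
    (y : (Lv4 G col x0 n).Y) :
    Relation.ReflTransGen (EE4 G col x0) (⟨0, PUnit.unit⟩ : YY4 G col x0) ⟨n, y⟩ := by
  induction n with
  | zero => exact Relation.ReflTransGen.refl
  | succ n ih =>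
    obtain ⟨p, rfl⟩ := Quot.exists_rep (r := rl4 G col (Lv4 G col x0 n)) y
    have h : PR4 G col (Lv4 G col x0 n) p.1.1 (Quot.mk (rl4 G col (Lv4 G col x0 n)) p) :=
      ⟨p, rfl, rfl⟩
    exact (ih p.1.1).tail (EE4.up h)

/-- `EE4` changes the level by exactly one -/
private theorem Lay4_lev {G : SimpleGraph V} {col : V → Fin 3} {x0 : V} {a b : YY4 G col x0}
    (h : EE4 G col x0 a b) : b.1 = a.1 + 1 ∨ a.1 = b.1 + 1 := by
  cases h with
  | up _ => exact Or.inl rfl
  | dn _ => exact Or.inr rfl

private theorem Lay4_dn {G : SimpleGraph V} {col : V → Fin 3} {x0 : V} {n : ℕ}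
    {y : (Lv4 G col x0 (n + 1)).Y} {b : YY4 G col x0} (h : EE4 G col x0 ⟨n + 1, y⟩ b)
    (hb : b.1 = n) : ∃ z, b = ⟨n, z⟩ ∧ PR4 G col (Lv4 G col x0 n) z y := by
  cases h with
  | up _ =>
    have hb' : n + 1 + 1 = n := hb
    omega
  | dn h => exact ⟨_, rfl, h⟩

private theorem Lay4_col {i : Fin 3} (h : i ≠ 1) : i = 0 ∨ i = 2 := by
  fin_cases i <;> simp_all

private theorem Lay4_col3 {i j k : Fin 3} (hi : i ≠ 1) (hj : j ≠ 1) (hij : i ≠ j) (hik : i ≠ k)
    (hjk : j ≠ k) : k = 1 := by
  fin_cases i <;> fin_cases j <;> fin_cases k <;> simp_all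

theorem lay4_of_sc {G : SimpleGraph V} {col : V → Fin 3} (hT : Tri G col) (hX : SqLoc G col)
    (hc : G.Connected) (hs : ScInj G) (x0 : V) : Lay4 G col x0 := by
  have hC := cov_YY4 hT hX x0
  have hinj : ∀ a b : YY4 G col x0, phi4 G col x0 a = phi4 G col x0 b → a = b := fun a b hab =>
    cov4_inj hT hs hC ⟨0, PUnit.unit⟩ a b (Lay4_reach G col x0 a.1 a.2)
      (Lay4_reach G col x0 b.1 b.2) hab
  have hlc := leg_conn hT hc
  have hsurj : ∀ v : V, ∃ a : YY4 G col x0, phi4 G col x0 a = v := by
    intro v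
    have hr : Relation.ReflTransGen (legG G col).Adj x0 v :=
      (SimpleGraph.reachable_iff_reflTransGen x0 v).1 (hlc.preconnected x0 v)
    induction hr with
    | refl => exact ⟨⟨0, PUnit.unit⟩, rfl⟩
    | tail _ hbc ih =>
      obtain ⟨a, ha⟩ := ih
      have hbc' : Leg G col (phi4 G col x0 a) _ := ha.symm ▸ hbc
      obtain ⟨b, _, hb⟩ := hC.ex a _ hbc'
      exact ⟨b, hb⟩
  choose s hs' using hsurj
  have hsp : ∀ a : YY4 G col x0, s (phi4 G col x0 a) = a := fun a => hinj _ _ (hs' _)
  have hadj : ∀ v w : V, Leg G col v w → EE4 G col x0 (s v) (s w) := by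
    intro v w hvw
    obtain ⟨b, hb, hbw⟩ := hC.ex (s v) w ((hs' v).symm ▸ hvw)
    have : b = s w := hinj _ _ (by rw [hbw, hs'])
    rwa [← this]
  have hle : ∀ (n : ℕ) (y : (Lv4 G col x0 n).Y),
      (legG G col).dist x0 (phi4 G col x0 ⟨n, y⟩) ≤ n := by
    intro n
    induction n with
    | zero =>
      intro y
      have e : phi4 G col x0 ⟨0, y⟩ = x0 := rfl
      rw [e, SimpleGraph.dist_self]
    | succ n ih =>
      intro y
      obtain ⟨p, rfl⟩ := Quot.exists_rep (r := rl4 G col (Lv4 G col x0 n)) y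
      have h : PR4 G col (Lv4 G col x0 n) p.1.1 (Quot.mk (rl4 G col (Lv4 G col x0 n)) p) :=
        ⟨p, rfl, rfl⟩
      have h1 : (legG G col).Adj _ _ := hC.adj _ _ (EE4.up h)
      have h2 := hlc.dist_triangle (u := x0) (v := phi4 G col x0 ⟨n, p.1.1⟩)
        (w := phi4 G col x0 ⟨n + 1, Quot.mk (rl4 G col (Lv4 G col x0 n)) p⟩)
      have h3 := SimpleGraph.dist_eq_one_iff_adj.2 h1
      have h4 := ih p.1.1
      omega
  have hwalk : ∀ {u v : V} (p : (legG G col).Walk u v), (s v).1 ≤ (s u).1 + p.length := by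
    intro u v p
    induction p with
    | nil => exact le_rfl
    | cons h q ih =>
      have h1 := Lay4_lev (hadj _ _ h)
      rw [SimpleGraph.Walk.length_cons]
      omega
  have hs0 : (s x0).1 = 0 := by
    have : s x0 = ⟨0, PUnit.unit⟩ := hsp ⟨0, PUnit.unit⟩
    rw [this]
  have hd : ∀ v : V, (legG G col).dist x0 v = (s v).1 := by
    intro v
    apply le_antisymm
    · have h1 := hle (s v).1 (s v).2
      have h2 : phi4 G col x0 ⟨(s v).1, (s v).2⟩ = v := hs' v
      rwa [h2] at h1
    · obtain ⟨p, hp⟩ := hlc.exists_walk_length_eq_dist x0 v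
      have h1 := hwalk p
      rw [hs0, hp] at h1
      omega
  have hda : ∀ (n : ℕ) (y : (Lv4 G col x0 n).Y),
      (legG G col).dist x0 ((Lv4 G col x0 n).ph y) = n := by
    intro n y
    have h1 := hsp ⟨n, y⟩
    have h2 := hd (phi4 G col x0 ⟨n, y⟩)
    rw [h1] at h2
    exact h2
  have hgood := good4_Lv hT hX x0
  have hstep : ∀ u v : V, Leg G col u v →
      (legG G col).dist x0 u = (legG G col).dist x0 v + 1 ∨
      (legG G col).dist x0 v = (legG G col).dist x0 u + 1 := by
    intro u v huv
    have h1 := Lay4_lev (hadj u v huv)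
    rw [hd, hd]
    exact h1.symm
  have hpar : ∀ (n : ℕ) (y : (Lv4 G col x0 n).Y) (d : V),
      Par4 G col x0 ((Lv4 G col x0 n).ph y) d ↔ d ∈ (Lv4 G col x0 n).dn y := by
    intro n y d
    constructor
    · rintro ⟨hl, hdd⟩
      rw [hda n y] at hdd
      obtain ⟨b, hb, hbd⟩ := hC.ex ⟨n, y⟩ d hl
      have hb1 : b.1 + 1 = n := by
        have h1 := hda b.1 b.2
        have h2 : (Lv4 G col x0 b.1).ph b.2 = d := hbd
        rw [h2] at h1
        omega
      cases n with
      | zero => exact absurd hb1 (Nat.succ_ne_zero _)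
      | succ n =>
        obtain ⟨z, rfl, p, hp, hpz⟩ := Lay4_dn hb (Nat.succ.inj hb1)
        refine ⟨p, hp, ?_⟩
        rw [hpz]
        exact hbd
    · intro hd'
      refine ⟨(hgood n).leg y d hd', ?_⟩
      rw [hda n y]
      cases n with
      | zero => exact absurd hd' (Set.notMem_empty _)
      | succ n =>
        obtain ⟨p, hp, rfl⟩ := hd'
        rw [hda n p.1.1]
  have hex : ∀ v : V, ∃ (n : ℕ) (y : (Lv4 G col x0 n).Y), (Lv4 G col x0 n).ph y = v :=
    fun v => ⟨(s v).1, (s v).2, hs' v⟩
  refine ⟨hlc, hstep, ?_, ?_, ?_⟩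
  · intro v d e hv hvd hve hde
    obtain ⟨n, y, rfl⟩ := hex v
    exact (hgood n).one y d e hv ((hpar n y d).1 hvd) ((hpar n y e).1 hve) hde
  · intro v d e hv hvd hve hde
    obtain ⟨n, y, rfl⟩ := hex v
    have hd1 := (hpar n y d).1 hvd
    have he1 := (hpar n y e).1 hve
    obtain ⟨c, hc1, hc2, hc3⟩ := (hgood n).fold y d e hv hd1 he1 hde
    refine ⟨c, hc1, hc2, ?_, fun b => (hpar n y b).trans (hc3 b)⟩
    cases n with
    | zero => exact absurd hd1 (Set.notMem_empty _)
    | succ n =>
      obtain ⟨cd, cda, cdc⟩ := (hc3 d).1 hd1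
      obtain ⟨ce, cea, cec⟩ := (hc3 e).1 he1
      obtain ⟨p, hp, hpd⟩ := hd1
      obtain ⟨q, hq, hqe⟩ := he1
      have hr := (mk_eq4 hT hX (hgood n) p q).1 (hp.trans hq.symm)
      have hpv : p.1.2 = (Lv4 G col x0 (n + 1)).ph y := by rw [← hp]; rfl
      rcases hr.2 with h | ⟨c', hsib, h⟩
      · exfalso
        apply hde
        rw [← hpd, ← hqe, h]
      · have hc'1 := (hgood n).sib_dn _ _ _ hsib
        have hc'2 := (hgood n).sib_dn _ _ _ ((hgood n).sib_symm _ _ _ hsib)
        have hP := (hpar n p.1.1 c').2 hc'1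
        have hadj1 : G.Adj c' ((Lv4 G col x0 (n + 1)).ph y) := by
          rcases h with h | h
          · rwa [hpv] at h
          · exfalso
            rw [hpd, hqe] at h
            exact hT.proper _ _ h (cd.trans ce.symm)
        have hdc' : G.Adj d c' := by
          have := ((hgood n).leg _ _ hc'1).1
          rwa [hpd] at this
        have hec' : G.Adj e c' := by
          have := ((hgood n).leg _ _ hc'2).1
          rwa [hqe] at this
        have hcc : c = c' := by
          by_contra hne
          have hNC : NC4 G ((Lv4 G col x0 (n + 1)).ph y) := by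
            rcases Lay4_col hv with h0 | h0
            · exact hX.a4 _ h0
            · exact hX.c4 _ h0
          exact hNC d e c c' cda cea hc2 hadj1.symm cdc cec.symm hec' hdc'.symm hde hne
        rw [hcc]
        have e1 := hP.2
        rw [hda n p.1.1] at e1
        rw [hda (n + 1) y]
        omega
  · intro a c ha hc' hac hdd
    obtain ⟨n, ya, rfl⟩ := hex a
    obtain ⟨m, yc, rfl⟩ := hex c
    rw [hda n ya, hda m yc] at hdd
    subst hdd
    have hcommon : ∃ b : V, Par4 G col x0 ((Lv4 G col x0 n).ph ya) b ∧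
        Par4 G col x0 ((Lv4 G col x0 n).ph yc) b := by
      obtain ⟨b, hab, hcb⟩ := hT.pure _ _ hac
      have hb1 : col b = 1 := Lay4_col3 ha hc' (hT.proper _ _ hac) (hT.proper _ _ hab)
        (hT.proper _ _ hcb)
      have lab : Leg G col ((Lv4 G col x0 n).ph ya) b := ⟨hab, Or.inr hb1⟩
      have lcb : Leg G col ((Lv4 G col x0 n).ph yc) b := ⟨hcb, Or.inr hb1⟩
      have h1 := hstep _ _ lab
      rw [hda n ya] at h1
      rcases h1 with h1 | h1
      · refine ⟨b, ⟨lab, ?_⟩, ⟨lcb, ?_⟩⟩
        · rw [hda n ya]; exact h1.symm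
        · rw [hda n yc]; exact h1.symm
      · obtain ⟨m, yb, rfl⟩ := hex b
        rw [hda m yb] at h1
        subst h1
        have pa : (Lv4 G col x0 n).ph ya ∈ (Lv4 G col x0 (n + 1)).dn yb := by
          rw [← hpar]
          refine ⟨⟨hab.symm, Or.inl hb1⟩, ?_⟩
          rw [hda, hda]
        have pc : (Lv4 G col x0 n).ph yc ∈ (Lv4 G col x0 (n + 1)).dn yb := by
          rw [← hpar]
          refine ⟨⟨hcb.symm, Or.inl hb1⟩, ?_⟩
          rw [hda, hda]
        obtain ⟨p, hp, hpa⟩ := pa
        obtain ⟨q, hq, hqc⟩ := pc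
        have hr := (mk_eq4 hT hX (hgood n) p q).1 (hp.trans hq.symm)
        rcases hr.2 with h | ⟨d, hsib, -⟩
        · exfalso
          apply hac.ne
          rw [← hpa, ← hqc, h]
        · refine ⟨d, ?_, ?_⟩
          · rw [← hpa, hpar]
            exact (hgood n).sib_dn _ _ _ hsib
          · rw [← hqc, hpar]
            exact (hgood n).sib_dn _ _ _ ((hgood n).sib_symm _ _ _ hsib)
    obtain ⟨b, hb1, hb2⟩ := hcommon
    refine ⟨b, hb1, hb2, ?_⟩
    intro b' hb'1 hb'2
    have k1 := (hpar n ya b).1 hb1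
    have k2 := (hpar n yc b).1 hb2
    have k3 := (hpar n ya b').1 hb'1
    cases n with
    | zero => exact absurd k1 (Set.notMem_empty _)
    | succ n =>
      obtain ⟨p, hp, hpb⟩ := k1
      obtain ⟨q, hq, hqb⟩ := k2
      have hpq : p.1.1 = q.1.1 := by
        have := hinj ⟨n, p.1.1⟩ ⟨n, q.1.1⟩ (hpb.trans hqb.symm)
        exact eq_of_heq (Sigma.mk.inj this).2
      have hsib : (Lv4 G col x0 (n + 1)).sib ya yc b := ⟨p, q, hp, hq, hpq, hpb⟩
      exact (hgood (n + 1)).single ya yc b b' hsib hac k3 hb'2.1.1.symm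

end Pool.H90TC
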