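import Pool.Agent.H90.TC.Sq.Defs

set_option autoImplicit false

/-!
Proof. Write `(y,v)` for candidates (`Leg (ph y) v`, `v ∉ dn y`), `a, c, e` for colours 0, 2, `b` for
colour 1. Legs join colour 1 with the other colours; two adjacent vertices of colours different from
1 have the colours 0 and 2. `K_c(a)` is the set of the common neighbours of colour 1 of adjacent
`a`, `c`. By `NC4`: two different `K_c(a)`, `K_e(a)` have at most one common element.

T (`mk_eq4`): `Quot.mk p = Quot.mk q ↔ rl4 p q`. `rl4` is reflexive and symmetric. Transitive: let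
`(y,v), (z,v), (w,v)` with `sib y z d`, `sib z w d'` (`d, d' ∈ dn z`) and the adjacencies.
* `col v ≠ 1`: then `ph y, ph z, ph w` have colour 1, `G.Adj d v`, `G.Adj d' v`, so `d, d'` have the same
  colour and `d = d'` by `one`; use `sib_trans`.
* `col v = 1`: `ph z` is adjacent to `ph y` and to `ph w`, colours of `ph y` and `ph w` are equal. If
  `d = d'`: if `ph y = ph w` then `y = w` by `sib_trans`, `sib_unique`; otherwise `d, ph y, v, ph w` is a
  4-cycle in the link of `ph z` (`d ≠ v` as `v ∉ dn z`), contradiction. If `d ≠ d'`: by `fold` there is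
  `e` with `dn z = K_e(ph z)`. `e ≠ ph y`, since otherwise `v ∈ dn z`; the same for `ph w`. If
  `ph y = ph w`: 4-cycle `d, e, d', ph y` in the link of `ph z`, contradiction. Otherwise 6-cycle
  `v, ph y, d, e, d', ph w` in the link of `ph z`, contradiction to `a6` or `c6`.

`good4_nxt`, for `y' = [(y,v)]`. The fields `leg`, `sib_symm`, `sib_dn`, `sib_refl` are immediate.
* `sib_trans`: `z' = [p] = [q]` with `ph p.1 = ph q.1 = d` implies `p.1 = q.1` (T; if `sib p.1 q.1 d0` use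
  `sib_unique`). `sib_unique`: same first and second components.
* `one` (`col v = 1`): `(z1,v), (z2,v)` with `ph z1 ≠ ph z2`, related by `sib z1 z2 d`: the alternative
  `G.Adj d v` is impossible (both have colour 1), so `ph z1, ph z2` are adjacent.
* `fold` (`col v ≠ 1`): `(z1,v), (z2,v)` with `ph z1 ≠ ph z2` (colour 1), related by `sib z1 z2 c` with
  `G.Adj c v`. Claim `dn y' = K_c(v)`. If `(z,v)` is in the class then `z = z1` or `sib z1 z c'` with
  `G.Adj c' v`, `c' = c` by `one` and colours. Conversely let `b ∈ K_c(v)`: `fan` for `z1, c, v` gives `z`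
  with `sib z1 z c`, `ph z = b`; `v ∉ dn z` by `same`; `(z,v)` is related to `(z1,v)`.
* `fan` (`col v = 1`, `d = ph y ∈ dn y'`, `c` adjacent to `v` and `d`, `c ∉ dn y'`, `b` adjacent to `d`,
  `c`): it is enough that `b ∉ dn y` (then take `[(y,b)]`). Suppose `b ∈ dn y`. `lat` for `y, b, c`:
  either `K_c(ph y) ⊆ dn y`, then `v ∈ dn y`, contradiction; or there is `z` with `sib y z b`,
  `ph z = c`. `v ∉ dn z`: otherwise `single` for `z, y, b, v` gives `v = b ∈ dn y`. So `(z,v)` is a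
  candidate related to `(y,v)`, `c ∈ dn y'`: contradiction.
* `same` (`y' = [(y,v)]`, `z' = [(y,w)]`, colours of `v, w` are 1, `d = ph y`, `c ∈ dn z'`): there is
  `(z,w)` related to `(y,w)` with `ph z = c`; `z ≠ y`, so `sib y z e` and `G.Adj (ph y) c` (the other
  alternative is impossible). `v ∉ dn z`: otherwise `single` for `z, y, e, v` gives `v = e ∈ dn y`. So
  `(z,v)` is related to `(y,v)`.
* `lat` (`col v ≠ 1`, `d = ph y ∈ dn y'`, `c` adjacent to `v` and `d`): if `c ∉ dn y` take `[(y,c)]`. If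
  `c ∈ dn y`: `K_c(v) ⊆ dn y'`: `fan` for `y, c, v` gives for `b ∈ K_c(v)` an element `z` with `sib y z c`,
  `ph z = b`; `v ∉ dn z` by `same`; `(z,v)` is related to `(y,v)`.
* `single` (`y' = [(y,v)]`, `z' = [(y,w)]`, `v, w` adjacent, `d = ph y` has colour 1, `b ∈ dn y'` adjacent
  to `w`): suppose `b ≠ d`: `(z,v)` related to `(y,v)`, `ph z = b`, `sib y z e`, `G.Adj e v`. `b, d` are
  adjacent to `v, e, w`; by `NC4` at `v`, `e = w`, but `w ∉ dn y`, `e ∈ dn y`.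
-/

namespace Pool.H90TC

open Pool.H90SY

universe u

variable {V : Type u}

private theorem SqN_fin (a b c : Fin 3) (ha : a ≠ 1) (hb : b ≠ 1) (hc : c ≠ 1) (h1 : a ≠ b)
    (h2 : c ≠ b) : a = c := by
  revert a b c
  decide

private theorem SqN_02 (a : Fin 3) (ha : a ≠ 1) : a = 0 ∨ a = 2 := by
  revert a
  decide

private theorem SqN_nc4 {G : SimpleGraph V} {col : V → Fin 3} (hX : SqLoc G col) {z : V}
    (h : col z ≠ 1) : NC4 G z := by
  rcases SqN_02 _ h with h | h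
  · exact hX.a4 z h
  · exact hX.c4 z h

private theorem SqN_nc6 {G : SimpleGraph V} {col : V → Fin 3} (hX : SqLoc G col) {z : V}
    (h : col z ≠ 1) : NC6 G z := by
  rcases SqN_02 _ h with h | h
  · exact hX.a6 z h
  · exact hX.c6 z h

private theorem SqN_c1 {G : SimpleGraph V} {col : V → Fin 3} (hT : Tri G col) {a b : V}
    (h : G.Adj a b) (ha : col a = 1) : col b ≠ 1 :=
  fun hb => hT.proper a b h (ha.trans hb.symm)

/-- an element of `dn z` adjacent to `v` is unique if `ph z` has colour 1 and `v` has not -/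
private theorem SqN_mid {G : SimpleGraph V} {col : V → Fin 3} (hT : Tri G col)
    {L : Lev4 V} (hL : Good4 G col L) {z : L.Y} {v d d' : V} (hz : col (L.ph z) = 1)
    (hv : col v ≠ 1) (hd : d ∈ L.dn z) (hd' : d' ∈ L.dn z) (h : G.Adj d v) (h' : G.Adj d' v) :
    d = d' := by
  by_contra hne
  have c1 : col d ≠ 1 := SqN_c1 hT (hL.leg z d hd).1 hz
  have c2 : col d' ≠ 1 := SqN_c1 hT (hL.leg z d' hd').1 hz
  exact hT.proper d d' (hL.one z d d' hz hd hd' hne)
    (SqN_fin (col d) (col v) (col d') c1 hv c2 (hT.proper _ _ h) (hT.proper _ _ h'))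

private theorem SqN_trans {G : SimpleGraph V} {col : V → Fin 3} (hT : Tri G col)
    (hX : SqLoc G col) {L : Lev4 V} (hL : Good4 G col L) {y z w : L.Y} {v d d' : V}
    (hy : Leg G col (L.ph y) v) (hz : Leg G col (L.ph z) v) (hw : Leg G col (L.ph w) v)
    (hvz : v ∉ L.dn z) (h1 : L.sib y z d) (h2 : L.sib z w d')
    (a1 : G.Adj d v ∨ G.Adj (L.ph y) (L.ph z)) (a2 : G.Adj d' v ∨ G.Adj (L.ph z) (L.ph w)) :
    y = w ∨ ∃ e : V, L.sib y w e ∧ (G.Adj e v ∨ G.Adj (L.ph y) (L.ph w)) := by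
  have hdz : d ∈ L.dn z := hL.sib_dn z y d (hL.sib_symm y z d h1)
  have hdy : d ∈ L.dn y := hL.sib_dn y z d h1
  have hdz' : d' ∈ L.dn z := hL.sib_dn z w d' h2
  have hdw' : d' ∈ L.dn w := hL.sib_dn w z d' (hL.sib_symm z w d' h2)
  by_cases hv : col v = 1
  · have cy : col (L.ph y) ≠ 1 := SqN_c1 hT hy.1.symm hv
    have cz : col (L.ph z) ≠ 1 := SqN_c1 hT hz.1.symm hv
    have cw : col (L.ph w) ≠ 1 := SqN_c1 hT hw.1.symm hv
    have cd : col d = 1 := (hL.leg z d hdz).2.resolve_left cz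
    have cd' : col d' = 1 := (hL.leg z d' hdz').2.resolve_left cz
    have b1 : G.Adj (L.ph y) (L.ph z) := a1.resolve_left (fun h => SqN_c1 hT h cd hv)
    have b2 : G.Adj (L.ph z) (L.ph w) := a2.resolve_left (fun h => SqN_c1 hT h cd' hv)
    have hdv : d ≠ v := fun h => hvz (h ▸ hdz)
    have hdv' : d' ≠ v := fun h => hvz (h ▸ hdz')
    by_cases hdd : d = d'
    · subst hdd
      by_cases hyw : L.ph y = L.ph w
      · exact Or.inl (hL.sib_unique y w d (hL.sib_trans y z w d h1 h2) hyw)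
      · exact (SqN_nc4 hX cz d v (L.ph y) (L.ph w) (hL.leg z d hdz).1 hz.1 b1.symm b2
          (hL.leg y d hdy).1.symm hy.1 hw.1.symm (hL.leg w d hdw').1 hdv hyw).elim
    · obtain ⟨e, he1, he2, he3⟩ := hL.fold z d d' cz hdz hdz' hdd
      have hey : e ≠ L.ph y := fun h => hvz ((he3 v).2 ⟨hv, hz.1, by rw [h]; exact hy.1.symm⟩)
      have hew : e ≠ L.ph w := fun h => hvz ((he3 v).2 ⟨hv, hz.1, by rw [h]; exact hw.1.symm⟩)
      have g1 : G.Adj d e := ((he3 d).1 hdz).2.2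
      have g2 : G.Adj d' e := ((he3 d').1 hdz').2.2
      by_cases hyw : L.ph y = L.ph w
      · exact (SqN_nc4 hX cz d d' e (L.ph y) (hL.leg z d hdz).1 (hL.leg z d' hdz').1 he2 b1.symm
          g1 g2.symm (by rw [hyw]; exact (hL.leg w d' hdw').1.symm) (hL.leg y d hdy).1 hdd
          hey).elim
      · exact (SqN_nc6 hX cz v d d' (L.ph y) e (L.ph w) hz.1 (hL.leg z d hdz).1
          (hL.leg z d' hdz').1 b1.symm he2 b2 hy.1.symm (hL.leg y d hdy).1 g1 g2.symm
          (hL.leg w d' hdw').1.symm hw.1 hdv.symm hdv'.symm hdd hey.symm hyw hew).elim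
  · have cy : col (L.ph y) = 1 := hy.2.resolve_right hv
    have cz : col (L.ph z) = 1 := hz.2.resolve_right hv
    have cw : col (L.ph w) = 1 := hw.2.resolve_right hv
    have b1 : G.Adj d v := a1.resolve_right (fun h => SqN_c1 hT h cy cz)
    have b2 : G.Adj d' v := a2.resolve_right (fun h => SqN_c1 hT h cz cw)
    have hdd := SqN_mid hT hL cz hv hdz hdz' b1 b2
    subst hdd
    exact Or.inr ⟨d, hL.sib_trans y z w d h1 h2, Or.inl b1⟩

theorem mk_eq4 {G : SimpleGraph V} {col : V → Fin 3} (hT : Tri G col) (hX : SqLoc G col)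
    {L : Lev4 V} (hL : Good4 G col L) (p q : Cand4 G col L) :
    Quot.mk (rl4 G col L) p = Quot.mk (rl4 G col L) q ↔ rl4 G col L p q := by
  have he : Equivalence (rl4 G col L) := by
    refine ⟨fun p => ⟨rfl, Or.inl rfl⟩, fun {p q} h => ⟨h.1.symm, ?_⟩, fun {p q r} h h' =>
      ⟨h.1.trans h'.1, ?_⟩⟩
    · rcases h.2 with h2 | ⟨d, h2, h3⟩
      · exact Or.inl h2.symm
      · refine Or.inr ⟨d, hL.sib_symm _ _ _ h2, ?_⟩
        rw [← h.1]
        exact h3.imp id (fun g => g.symm)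
    · rcases h.2 with h2 | ⟨d, h2, h3⟩
      · rw [h2, h.1]
        exact h'.2
      · rcases h'.2 with h4 | ⟨d', h4, h5⟩
        · rw [← h4]
          exact Or.inr ⟨d, h2, h3⟩
        · rw [← h.1] at h5
          refine SqN_trans hT hX hL p.2.1 ?_ ?_ ?_ h2 h4 h3 h5
          · rw [h.1]
            exact q.2.1
          · rw [h.1, h'.1]
            exact r.2.1
          · rw [h.1]
            exact q.2.2
  constructor
  · intro h
    exact (he.eqvGen_iff).1 (Quot.eqvGen_exact h)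
  · exact fun h => Quot.sound h

theorem good4_bot {G : SimpleGraph V} {col : V → Fin 3} (x0 : V) : Good4 G col (bot4 x0) where
  leg _ _ h := h.elim
  sib_symm _ _ _ h := h.elim
  sib_dn _ _ _ h := h.elim
  sib_refl _ _ h := h.elim
  sib_trans _ _ _ _ h := h.elim
  sib_unique _ _ _ h := h.elim
  one _ _ _ _ h := h.elim
  fold _ _ _ _ h := h.elim
  lat _ _ _ _ h := h.elim
  fan _ _ _ _ h := h.elim
  single _ _ _ _ h := h.elim
  same _ _ _ _ _ h := h.elim

private theorem SqN_fst {G : SimpleGraph V} {col : V → Fin 3} (hT : Tri G col)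
    (hX : SqLoc G col) {L : Lev4 V} (hL : Good4 G col L) {p q : Cand4 G col L}
    (h : Quot.mk (rl4 G col L) p = Quot.mk (rl4 G col L) q)
    (h' : L.ph p.1.1 = L.ph q.1.1) : p.1.1 = q.1.1 := by
  rcases ((mk_eq4 hT hX hL p q).1 h).2 with h2 | ⟨d, h2, -⟩
  · exact h2
  · exact hL.sib_unique _ _ d h2 h'

theorem good4_nxt {G : SimpleGraph V} {col : V → Fin 3} (hT : Tri G col) (hX : SqLoc G col)
    {L : Lev4 V} (hL : Good4 G col L) : Good4 G col (nxt4 G col L) where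
  leg := by
    rintro _ _ ⟨p, rfl, rfl⟩
    exact ⟨p.2.1.1.symm, p.2.1.2.symm⟩
  sib_symm := by
    rintro _ _ _ ⟨p, q, rfl, rfl, h1, rfl⟩
    exact ⟨q, p, rfl, rfl, h1.symm, by rw [h1]⟩
  sib_dn := by
    rintro _ _ _ ⟨p, q, rfl, rfl, h1, rfl⟩
    exact ⟨p, rfl, rfl⟩
  sib_refl := by
    rintro _ _ ⟨p, rfl, rfl⟩
    exact ⟨p, p, rfl, rfl, rfl, rfl⟩
  sib_trans := by
    rintro _ z _ _ ⟨p, q, rfl, hq, h1, rfl⟩ ⟨q', r, hq', rfl, h2, h3⟩
    refine ⟨p, r, rfl, rfl, ?_, rfl⟩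
    have h4 : q.1.1 = q'.1.1 := SqN_fst hT hX hL (hq.trans hq'.symm) (by rw [h3, h1])
    rw [h1, h4, h2]
  sib_unique := by
    rintro _ _ _ ⟨p, q, rfl, rfl, h1, rfl⟩ hph
    have h2 : p.1.2 = q.1.2 := hph
    exact congrArg (Quot.mk (rl4 G col L)) (Subtype.ext (Prod.ext h1 h2))
  one := by
    rintro _ _ _ hc ⟨p, rfl, rfl⟩ ⟨q, hq, rfl⟩ hne
    have hc' : col p.1.2 = 1 := hc
    rcases ((mk_eq4 hT hX hL p q).1 hq.symm).2 with h | ⟨d0, h, h'⟩
    · exact absurd (congrArg L.ph h) hne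
    · refine h'.resolve_left (fun h0 => ?_)
      have cp : col (L.ph p.1.1) ≠ 1 := SqN_c1 hT p.2.1.1.symm hc'
      exact SqN_c1 hT h0 ((hL.leg _ d0 (hL.sib_dn _ _ d0 h)).2.resolve_left cp) hc'
  fold := by
    rintro _ _ _ hc ⟨p, rfl, rfl⟩ ⟨q, hq, rfl⟩ hne
    have hc' : col p.1.2 ≠ 1 := hc
    have cp : col (L.ph p.1.1) = 1 := p.2.1.2.resolve_right hc'
    rcases ((mk_eq4 hT hX hL p q).1 hq.symm).2 with h | ⟨c, h, h'⟩
    · exact absurd (congrArg L.ph h) hne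
    · have hv := ((mk_eq4 hT hX hL p q).1 hq.symm).1
      have cq : col (L.ph q.1.1) = 1 := q.2.1.2.resolve_right (by rw [← hv]; exact hc')
      have hcv : G.Adj c p.1.2 := h'.resolve_right (fun g => SqN_c1 hT g cp cq)
      have hcp : c ∈ L.dn p.1.1 := hL.sib_dn _ _ c h
      refine ⟨c, SqN_c1 hT (hL.leg _ c hcp).1 cp, hcv.symm, fun b => ⟨?_, ?_⟩⟩
      · rintro ⟨r, hr, rfl⟩
        have hr2 := (mk_eq4 hT hX hL p r).1 hr.symm
        have cr : col (L.ph r.1.1) = 1 := r.2.1.2.resolve_right (by rw [← hr2.1]; exact hc')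
        have ar : G.Adj p.1.2 (L.ph r.1.1) := by
          rw [hr2.1]
          exact r.2.1.1.symm
        refine ⟨cr, ar, ?_⟩
        rcases hr2.2 with g | ⟨c', g, g'⟩
        · rw [← g]
          exact (hL.leg _ c hcp).1
        · have hcv' : G.Adj c' p.1.2 := g'.resolve_right (fun g => SqN_c1 hT g cp cr)
          have e := SqN_mid hT hL cp hc' hcp (hL.sib_dn _ _ c' g) hcv hcv'
          subst e
          exact (hL.leg _ c (hL.sib_dn _ _ c (hL.sib_symm _ _ _ g))).1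
      · rintro ⟨hb1, hb2, hb3⟩
        have hb2' : G.Adj p.1.2 b := hb2
        obtain ⟨z, hz1, hz2⟩ := hL.fan p.1.1 c p.1.2 cp hcp p.2.1.1 hcv p.2.2 b hb1 hb3
          hb2'.symm
        have hvz : p.1.2 ∉ L.dn z := fun g =>
          p.2.2 (hL.same p.1.1 z c p.1.2 cp hz1 hcv p.2.1.1 g)
        refine ⟨⟨(z, p.1.2), ⟨?_, hvz⟩⟩, Quot.sound ⟨rfl, Or.inr ⟨c, hL.sib_symm _ _ _ hz1,
          Or.inl hcv⟩⟩, hz2⟩
        exact ⟨by rw [hz2]; exact hb2'.symm, Or.inl (by rw [hz2]; exact hb1)⟩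
  lat := by
    rintro _ _ c hc ⟨p, rfl, rfl⟩ hcc hac hdc
    have hc' : col p.1.2 ≠ 1 := hc
    have hac' : G.Adj p.1.2 c := hac
    have cp : col (L.ph p.1.1) = 1 := p.2.1.2.resolve_right hc'
    by_cases hcd : c ∈ L.dn p.1.1
    · left
      intro b hb1 hb2 hb3
      have hb2' : G.Adj p.1.2 b := hb2
      obtain ⟨z, hz1, hz2⟩ := hL.fan p.1.1 c p.1.2 cp hcd p.2.1.1 hac'.symm p.2.2 b hb1 hb3
        hb2'.symm
      have hvz : p.1.2 ∉ L.dn z := fun g =>
        p.2.2 (hL.same p.1.1 z c p.1.2 cp hz1 hac'.symm p.2.1.1 g)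
      refine ⟨⟨(z, p.1.2), ⟨?_, hvz⟩⟩, Quot.sound ⟨rfl, Or.inr ⟨c, hL.sib_symm _ _ _ hz1,
        Or.inl hac'.symm⟩⟩, hz2⟩
      exact ⟨by rw [hz2]; exact hb2'.symm, Or.inl (by rw [hz2]; exact hb1)⟩
    · right
      have hcand : Leg G col (L.ph p.1.1) c ∧ c ∉ L.dn p.1.1 := ⟨⟨hdc, Or.inl cp⟩, hcd⟩
      exact ⟨Quot.mk _ ⟨(p.1.1, c), hcand⟩, ⟨p, ⟨(p.1.1, c), hcand⟩, rfl, rfl, rfl, rfl⟩, rfl⟩
  fan := by
    rintro _ _ c hc ⟨p, rfl, rfl⟩ hac hdc hcn b hb1 hbd hbc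
    have hc' : col p.1.2 = 1 := hc
    have hac' : G.Adj p.1.2 c := hac
    have cp : col (L.ph p.1.1) ≠ 1 := SqN_c1 hT p.2.1.1.symm hc'
    have cc : col c ≠ 1 := SqN_c1 hT hac' hc'
    have hbn : b ∉ L.dn p.1.1 := by
      intro hb
      rcases hL.lat p.1.1 b c cp hb cc hdc hbc with g | ⟨z, hz1, hz2⟩
      · exact p.2.2 (g p.1.2 hc' p.2.1.1 hac')
      · have hzy : G.Adj (L.ph z) (L.ph p.1.1) := by
          rw [hz2]
          exact hdc.symm
        have hvz : p.1.2 ∉ L.dn z := by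
          intro g
          have e := hL.single z p.1.1 b p.1.2 (hL.sib_symm _ _ _ hz1) hzy g p.2.1.1.symm
          exact p.2.2 (e ▸ hb)
        refine hcn ⟨⟨(z, p.1.2), ⟨⟨?_, Or.inr hc'⟩, hvz⟩⟩, Quot.sound ⟨rfl, Or.inr ⟨b,
          hL.sib_symm _ _ _ hz1, Or.inr hzy⟩⟩, hz2⟩
        change G.Adj (L.ph z) p.1.2
        rw [hz2]
        exact hac'.symm
    have hcand : Leg G col (L.ph p.1.1) b ∧ b ∉ L.dn p.1.1 := ⟨⟨hbd.symm, Or.inr hb1⟩, hbn⟩
    exact ⟨Quot.mk _ ⟨(p.1.1, b), hcand⟩, ⟨p, ⟨(p.1.1, b), hcand⟩, rfl, rfl, rfl, rfl⟩, rfl⟩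
  single := by
    rintro _ _ _ _ ⟨p, q, rfl, rfl, h1, rfl⟩ hvw ⟨r, hr, rfl⟩ hbw
    have hvw' : G.Adj p.1.2 q.1.2 := hvw
    have hbw' : G.Adj (L.ph r.1.1) q.1.2 := hbw
    have hq1 : Leg G col (L.ph p.1.1) q.1.2 := by
      rw [h1]
      exact q.2.1
    have hq2 : q.1.2 ∉ L.dn p.1.1 := by
      rw [h1]
      exact q.2.2
    have cp : col (L.ph p.1.1) = 1 := by
      by_contra hcp
      exact SqN_c1 hT hvw' (p.2.1.2.resolve_left hcp) (hq1.2.resolve_left hcp)
    have cv : col p.1.2 ≠ 1 := SqN_c1 hT p.2.1.1 cp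
    have hr2 := (mk_eq4 hT hX hL p r).1 hr.symm
    have cr : col (L.ph r.1.1) = 1 := r.2.1.2.resolve_right (by rw [← hr2.1]; exact cv)
    by_contra hne
    rcases hr2.2 with g | ⟨e, g, g'⟩
    · exact hne (congrArg L.ph g.symm)
    · have hev : G.Adj e p.1.2 := g'.resolve_right (fun g => SqN_c1 hT g cp cr)
      have hey : e ∈ L.dn p.1.1 := hL.sib_dn _ _ e g
      have her : e ∈ L.dn r.1.1 := hL.sib_dn _ _ e (hL.sib_symm _ _ _ g)
      have avr : G.Adj p.1.2 (L.ph r.1.1) := by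
        rw [hr2.1]
        exact r.2.1.1.symm
      exact SqN_nc4 hX cv (L.ph r.1.1) (L.ph p.1.1) e q.1.2 avr p.2.1.1.symm hev.symm hvw'
        (hL.leg _ e her).1 (hL.leg _ e hey).1.symm hq1.1 hbw'.symm hne
        (fun h => hq2 (h ▸ hey))
  same := by
    rintro _ _ _ c hc ⟨p, q, rfl, rfl, h1, rfl⟩ hdc hac ⟨r, hr, rfl⟩
    have hc' : col p.1.2 = 1 := hc
    have hac' : G.Adj p.1.2 (L.ph r.1.1) := hac
    rcases ((mk_eq4 hT hX hL q r).1 hr.symm).2 with g | ⟨e, g, g'⟩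
    · rw [h1, g] at hdc
      exact (G.loopless.irrefl _ hdc).elim
    · rw [← h1] at g
      have hvz : p.1.2 ∉ L.dn r.1.1 := by
        intro hv
        have e1 := hL.single r.1.1 p.1.1 e p.1.2 (hL.sib_symm _ _ _ g) hdc.symm hv
          p.2.1.1.symm
        exact p.2.2 (e1 ▸ hL.sib_dn _ _ e g)
      exact ⟨⟨(r.1.1, p.1.2), ⟨⟨hac'.symm, Or.inr hc'⟩, hvz⟩⟩, Quot.sound ⟨rfl, Or.inr ⟨e,
        hL.sib_symm _ _ _ g, Or.inr hdc.symm⟩⟩, rfl⟩

theorem good4_Lv {G : SimpleGraph V} {col : V → Fin 3} (hT : Tri G col) (hX : SqLoc G col)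
    (x0 : V) (n : ℕ) : Good4 G col (Lv4 G col x0 n) := by
  induction n with
  | zero => exact good4_bot x0
  | succ n ih => exact good4_nxt hT hX ih

end Pool.H90TC
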